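import Mathlib

set_option autoImplicit false

/-!
# Project GL++ (MP_120218), Down: sums of down-sets of vectors of natural numbers
-/

namespace Pool.Agent.Helper15.GPP

open Finset

/-- two to the number of non-zero coordinates -/
def wt {r : ℕ} (a : Fin r → ℕ) : ℕ := ∏ j, (if a j = 0 then 1 else 2)

theorem wt_eq {r : ℕ} (a : Fin r → ℕ) :
    wt a = 2 ^ (Finset.univ.filter (fun j => a j ≠ 0)).card := by
  unfold wt
  rw [← Finset.prod_const, Finset.prod_filter]
  refine Finset.prod_congr rfl fun j _ => ?_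
  by_cases h : a j = 0 <;> simp [h]

/-- the vectors with first coordinate `i`, without this coordinate -/
def fibN {r : ℕ} (D : Finset (Fin (r + 1) → ℕ)) (i : ℕ) : Finset (Fin r → ℕ) :=
  (D.filter (fun f => f 0 = i)).image (fun f => (Fin.tail f : Fin r → ℕ))

theorem mem_fibN {r : ℕ} {D : Finset (Fin (r + 1) → ℕ)} {i : ℕ} {f : Fin r → ℕ} :
    f ∈ fibN D i ↔ (Fin.cons i f : Fin (r + 1) → ℕ) ∈ D := by
  unfold fibN
  rw [Finset.mem_image]
  constructor
  · rintro ⟨g, hg, rfl⟩
    rw [Finset.mem_filter] at hg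
    obtain ⟨hg, rfl⟩ := hg
    rw [Fin.cons_self_tail]
    exact hg
  · intro h
    refine ⟨Fin.cons i f, Finset.mem_filter.2 ⟨h, Fin.cons_zero _ _⟩, ?_⟩
    exact Fin.tail_cons _ _

theorem tail_injOn {r : ℕ} (D : Finset (Fin (r + 1) → ℕ)) (i : ℕ) :
    Set.InjOn (fun f : Fin (r + 1) → ℕ => (Fin.tail f : Fin r → ℕ))
      ((D.filter (fun f => f 0 = i) : Finset (Fin (r + 1) → ℕ)) : Set (Fin (r + 1) → ℕ)) := by
  intro f hf g hg hfg
  have hf' := (Finset.mem_filter.1 (Finset.mem_coe.1 hf)).2
  have hg' := (Finset.mem_filter.1 (Finset.mem_coe.1 hg)).2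
  have hfg' : (Fin.tail f : Fin r → ℕ) = Fin.tail g := hfg
  rw [← Fin.cons_self_tail f, ← Fin.cons_self_tail g, hfg']
  rw [hf', hg']

theorem card_fibN {r : ℕ} (D : Finset (Fin (r + 1) → ℕ)) (i : ℕ) :
    (fibN D i).card = (D.filter (fun f => f 0 = i)).card :=
  Finset.card_image_of_injOn (tail_injOn D i)

theorem sum_even_odd (f : ℕ → ℕ) (M : ℕ) :
    ∑ u ∈ Finset.range (2 * M), f u = ∑ i ∈ Finset.range M, (f (2 * i) + f (2 * i + 1)) := by
  induction M with
  | zero => simp
  | succ M ih =>
    rw [Finset.sum_range_succ, ← ih, show 2 * (M + 1) = 2 * M + 1 + 1 by ring,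
      Finset.sum_range_succ, Finset.sum_range_succ]
    ring

/-- `∑ 2 ^ |supp a| ≤ |D + D|` -/
theorem sum_wt_le : ∀ (r : ℕ) (D : Finset (Fin r → ℕ)),
    (∀ a ∈ D, ∀ b : Fin r → ℕ, (∀ j, b j ≤ a j) → b ∈ D) →
    ∑ a ∈ D, wt a ≤ (Finset.image₂ (fun a b => a + b) D D).card := by
  classical
  intro r
  induction r with
  | zero =>
    intro D _
    have h1 : ∑ a ∈ D, wt a = D.card := by
      rw [Finset.card_eq_sum_ones]
      refine Finset.sum_congr rfl fun a _ => ?_
      unfold wt
      simp
    rw [h1]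
    rcases D.eq_empty_or_nonempty with rfl | ⟨a, ha⟩
    · simp
    · exact Finset.card_le_card fun b hb => by
        have : b = a + a := Subsingleton.elim _ _
        rw [this]
        exact Finset.mem_image₂_of_mem ha ha
  | succ r ih =>
    intro D hdown
    obtain ⟨M, hM⟩ : ∃ M : ℕ, ∀ a ∈ D, a 0 < M := by
      refine ⟨D.sup (fun a => a 0) + 1, fun a ha => ?_⟩
      have := Finset.le_sup (f := fun a : Fin (r + 1) → ℕ => a 0) ha
      exact Nat.lt_succ_of_le this
    obtain ⟨E, hE⟩ : ∃ E : Finset (Fin (r + 1) → ℕ), E = Finset.image₂ (fun a b => a + b) D D :=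
      ⟨_, rfl⟩
    rw [← hE]
    obtain ⟨T, hT⟩ : ∃ T : ℕ → ℕ, T = fun i =>
      (Finset.image₂ (fun a b => a + b) (fibN D i) (fibN D i)).card := ⟨_, rfl⟩
    have hdi : ∀ i, ∀ a ∈ fibN D i, ∀ b : Fin r → ℕ, (∀ j, b j ≤ a j) → b ∈ fibN D i := by
      intro i a ha b hb
      rw [mem_fibN] at ha ⊢
      refine hdown _ ha _ fun j => ?_
      induction j using Fin.cases with
      | zero => simp
      | succ j => simpa using hb j
    have hle : ∀ i, fibN D (i + 1) ⊆ fibN D i := by
      intro i a ha
      rw [mem_fibN] at ha ⊢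
      refine hdown _ ha _ fun j => ?_
      induction j using Fin.cases with
      | zero => simp
      | succ j => simp
    -- the left side
    have hL : ∑ a ∈ D, wt a ≤ ∑ i ∈ Finset.range M, (if i = 0 then 1 else 2) * T i := by
      rw [← Finset.sum_fiberwise_of_maps_to (s := D) (t := Finset.range M) (g := fun a => a 0)
        (fun a ha => Finset.mem_range.2 (hM a ha))]
      refine Finset.sum_le_sum fun i _ => ?_
      have h1 : ∑ a ∈ D.filter (fun a => a 0 = i), wt a =
          ∑ b ∈ fibN D i, (if i = 0 then 1 else 2) * wt b := by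
        unfold fibN
        rw [Finset.sum_image (tail_injOn D i)]
        refine Finset.sum_congr rfl fun a ha => ?_
        have ha0 := (Finset.mem_filter.1 ha).2
        unfold wt
        rw [Fin.prod_univ_succ, ha0]
        rfl
      rw [h1, ← Finset.mul_sum, hT]
      exact Nat.mul_le_mul_left _ (ih _ (hdi i))
    -- the right side
    have hR : ∑ i ∈ Finset.range M, (T i + T (i + 1)) ≤ E.card := by
      have h1 : E.card = ∑ u ∈ Finset.range (2 * M), (fibN E u).card := by
        rw [Finset.card_eq_sum_card_fiberwise (s := E) (t := Finset.range (2 * M))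
          (f := fun a => a 0)]
        · exact Finset.sum_congr rfl fun u _ => (card_fibN E u).symm
        · intro a ha
          rw [hE] at ha
          obtain ⟨x, hx, y, hy, rfl⟩ := Finset.mem_image₂.1 (Finset.mem_coe.1 ha)
          have hx' := hM x hx
          have hy' := hM y hy
          refine Finset.mem_coe.2 (Finset.mem_range.2 ?_)
          show x 0 + y 0 < 2 * M
          omega
      rw [h1, sum_even_odd]
      refine Finset.sum_le_sum fun i _ => Nat.add_le_add ?_ ?_
      · rw [hT]
        refine Finset.card_le_card fun z hz => ?_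
        obtain ⟨x, hx, y, hy, rfl⟩ := Finset.mem_image₂.1 hz
        rw [mem_fibN] at hx hy ⊢
        have hxy : (Fin.cons (2 * i) (x + y) : Fin (r + 1) → ℕ) = Fin.cons i x + Fin.cons i y := by
          funext j
          induction j using Fin.cases with
          | zero => simp [two_mul]
          | succ j => simp
        rw [hxy, hE]
        exact Finset.mem_image₂_of_mem hx hy
      · rw [hT]
        refine Finset.card_le_card fun z hz => ?_
        obtain ⟨x, hx, y, hy, rfl⟩ := Finset.mem_image₂.1 hz
        have hy' := hle i hy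
        rw [mem_fibN] at hx hy' ⊢
        have hxy : (Fin.cons (2 * i + 1) (x + y) : Fin (r + 1) → ℕ) =
            Fin.cons (i + 1) x + Fin.cons i y := by
          funext j
          induction j using Fin.cases with
          | zero =>
            simp only [Fin.cons_zero, Pi.add_apply]
            ring
          | succ j => simp
        rw [hxy, hE]
        exact Finset.mem_image₂_of_mem hx hy'
    refine hL.trans (le_trans ?_ hR)
    rw [Finset.sum_add_distrib]
    have h3 : ∑ i ∈ Finset.range M, (if i = 0 then 1 else 2) * T i + T 0 ≤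
        (∑ i ∈ Finset.range M, T i + ∑ i ∈ Finset.range M, T (i + 1)) + T 0 := by
      have h4 := Finset.sum_range_succ' T M
      rw [add_assoc, ← h4]
      rcases Nat.eq_zero_or_pos M with rfl | hMp
      · simp
      · have h5 : ∑ i ∈ Finset.range M, (if i = 0 then 1 else 2) * T i + T 0 =
            ∑ i ∈ Finset.range M, 2 * T i := by
          have h6 : ∀ i ∈ Finset.range M, 2 * T i =
              (if i = 0 then 1 else 2) * T i + (if i = 0 then T 0 else 0) := by
            intro i _
            by_cases h : i = 0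
            · subst h
              simp only [if_true]
              ring
            · simp only [if_neg h, add_zero]
          rw [Finset.sum_congr rfl h6, Finset.sum_add_distrib,
            Finset.sum_ite_eq' (Finset.range M) 0 (fun _ => T 0),
            if_pos (Finset.mem_range.2 hMp)]
        rw [h5, Finset.sum_range_succ, ← Finset.mul_sum]
        omega
    omega

/-- the number of vectors below `a` -/
def bx {r : ℕ} (a : Fin r → ℕ) : ℕ := ∏ j, (a j + 1)

/-- **A down-set with small doubling contains a large box of small dimension.** -/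
theorem down_shape {r : ℕ} (D : Finset (Fin r → ℕ)) (hD : D.Nonempty)
    (hdown : ∀ a ∈ D, ∀ b : Fin r → ℕ, (∀ j, b j ≤ a j) → b ∈ D) (K : ℝ)
    (hK : ((Finset.image₂ (fun a b => a + b) D D).card : ℝ) ≤ K * D.card) :
    ∃ a ∈ D, (2 : ℝ) ^ (Finset.univ.filter (fun j => a j ≠ 0)).card ≤ 2 * K ∧
      (D.card : ℝ) ≤ 4 * K * ((bx a : ℕ) : ℝ) ^ 2 := by
  classical
  have hDc : (0 : ℝ) < D.card := by exact_mod_cast hD.card_pos
  have hEc : (0 : ℝ) < (Finset.image₂ (fun a b => a + b) D D).card := by
    exact_mod_cast (hD.image₂ hD).card_pos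
  have hK0 : 0 < K := by
    by_contra h
    have : K * D.card ≤ 0 := mul_nonpos_of_nonpos_of_nonneg (not_lt.1 h) hDc.le
    linarith
  have hsum : (∑ a ∈ D, (wt a : ℝ)) ≤ K * D.card := by
    refine le_trans ?_ hK
    exact_mod_cast sum_wt_le r D hdown
  obtain ⟨D1, hD1⟩ : ∃ D1 : Finset (Fin r → ℕ), D1 = D.filter (fun a => (wt a : ℝ) ≤ 2 * K) :=
    ⟨_, rfl⟩
  have hD1D : D1 ⊆ D := by rw [hD1]; exact Finset.filter_subset _ _
  have hhalf : (D.card : ℝ) ≤ 2 * D1.card := by
    have h1 : (2 * K) * ((D \ D1).card : ℝ) ≤ ∑ a ∈ D \ D1, (wt a : ℝ) := by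
      rw [mul_comm, ← nsmul_eq_mul, ← Finset.sum_const]
      refine Finset.sum_le_sum fun a ha => ?_
      rw [Finset.mem_sdiff, hD1, Finset.mem_filter] at ha
      by_contra h
      exact ha.2 ⟨ha.1, (not_le.1 h).le⟩
    have h2 : ∑ a ∈ D \ D1, (wt a : ℝ) ≤ ∑ a ∈ D, (wt a : ℝ) :=
      Finset.sum_le_sum_of_subset_of_nonneg Finset.sdiff_subset fun _ _ _ => Nat.cast_nonneg _
    have h3 : ((D \ D1).card : ℝ) = D.card - D1.card := by
      rw [Finset.card_sdiff_of_subset hD1D, Nat.cast_sub (Finset.card_le_card hD1D)]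
    rw [h3] at h1
    have h4 : K * (2 * (D.card - D1.card : ℝ)) ≤ K * D.card := by
      calc K * (2 * (D.card - D1.card : ℝ)) = 2 * K * (D.card - D1.card) := by ring
        _ ≤ _ := h1.trans (h2.trans hsum)
    have h5 := le_of_mul_le_mul_left h4 hK0
    linarith
  have hD1ne : D1.Nonempty := by
    rw [← Finset.card_pos]
    have : (0 : ℝ) < D1.card := by linarith
    exact_mod_cast this
  obtain ⟨a, ha, hmax⟩ := Finset.exists_max_image D1 bx hD1ne
  refine ⟨a, hD1D ha, ?_, ?_⟩
  · have h1 := ha
    rw [hD1, Finset.mem_filter] at h1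
    have h2 := h1.2
    rw [wt_eq] at h2
    exact_mod_cast h2
  · have hcount : (D1 ×ˢ D1).card ≤ (bx a * bx a) *
        ((D1 ×ˢ D1).image (fun x : (Fin r → ℕ) × (Fin r → ℕ) => x.1 + x.2)).card := by
      refine Finset.card_le_mul_card_image _ _ fun f hf => ?_
      obtain ⟨⟨a0, b0⟩, h0, rfl⟩ := Finset.mem_image.1 hf
      rw [Finset.mem_product] at h0
      have h1 : ((D1 ×ˢ D1).filter (fun x : (Fin r → ℕ) × (Fin r → ℕ) =>
          x.1 + x.2 = a0 + b0)).card ≤ bx (a0 + b0) := by
        have h2 : bx (a0 + b0) =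
            (Fintype.piFinset (fun j => Finset.range ((a0 + b0) j + 1))).card := by
          rw [Fintype.card_piFinset]
          unfold bx
          exact Finset.prod_congr rfl fun j _ => (Finset.card_range _).symm
        rw [h2]
        refine Finset.card_le_card_of_injOn (fun x => x.1) ?_ ?_
        · intro x hx
          have hx' := (Finset.mem_filter.1 (Finset.mem_coe.1 hx)).2
          refine Finset.mem_coe.2 (Fintype.mem_piFinset.2 fun j => ?_)
          rw [Finset.mem_range, ← hx']
          show x.1 j < x.1 j + x.2 j + 1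
          omega
        · intro x hx y hy hxy
          have hx' := (Finset.mem_filter.1 (Finset.mem_coe.1 hx)).2
          have hy' := (Finset.mem_filter.1 (Finset.mem_coe.1 hy)).2
          have hxy' : x.1 = y.1 := hxy
          refine Prod.ext hxy' ?_
          rw [← hy', hxy'] at hx'
          exact add_left_cancel hx'
      refine h1.trans ?_
      have h3 : bx (a0 + b0) ≤ bx a0 * bx b0 := by
        unfold bx
        rw [← Finset.prod_mul_distrib]
        refine Finset.prod_le_prod' fun j _ => ?_
        show a0 j + b0 j + 1 ≤ (a0 j + 1) * (b0 j + 1)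
        nlinarith [Nat.zero_le (a0 j * b0 j)]
      exact h3.trans (Nat.mul_le_mul (hmax _ h0.1) (hmax _ h0.2))
    have h1 : ((D1 ×ˢ D1).image (fun x : (Fin r → ℕ) × (Fin r → ℕ) => x.1 + x.2)).card ≤
        (Finset.image₂ (fun a b => a + b) D D).card := by
      refine Finset.card_le_card fun z hz => ?_
      obtain ⟨⟨x, y⟩, hxy, rfl⟩ := Finset.mem_image.1 hz
      rw [Finset.mem_product] at hxy
      exact Finset.mem_image₂_of_mem (hD1D hxy.1) (hD1D hxy.2)
    have h2 : (D1.card : ℝ) * D1.card ≤ (bx a : ℝ) * bx a * (K * D.card) := by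
      have h3 := hcount.trans (Nat.mul_le_mul_left _ h1)
      rw [Finset.card_product] at h3
      have h4 : ((D1.card * D1.card : ℕ) : ℝ) ≤ ((bx a * bx a *
        (Finset.image₂ (fun a b => a + b) D D).card : ℕ) : ℝ) := by exact_mod_cast h3
      push_cast at h4
      refine h4.trans (mul_le_mul_of_nonneg_left hK (by positivity))
    have h3 : (D.card : ℝ) * D.card ≤ (4 * K * ((bx a : ℕ) : ℝ) ^ 2) * D.card := by
      have h4 : (D.card : ℝ) * D.card ≤ (2 * D1.card) * (2 * D1.card) :=
        mul_le_mul hhalf hhalf hDc.le (by positivity)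
      calc (D.card : ℝ) * D.card ≤ (2 * D1.card) * (2 * D1.card) := h4
        _ = 4 * (D1.card * D1.card) := by ring
        _ ≤ 4 * ((bx a : ℝ) * bx a * (K * D.card)) := by linarith
        _ = _ := by ring
    exact le_of_mul_le_mul_right h3 hDc

end Pool.Agent.Helper15.GPP
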