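import Pool.Agent.Helper15.GPP.Osh
import Pool.Agent.Helper15.GPP.Down
import Pool.Agent.Helper15.GL.Sep

set_option autoImplicit false

/-!
# Project GL++ (MP_120218), Tree: a set of rationals with small doubling contains a large subset
whose elements are determined by few valuations
-/

namespace Pool.Agent.Helper15.GPP

open Finset Pool.Agent.Helper15.GLP Pool.Agent.Helper15.GL

theorem exists_tree {R : ℕ} (S : Finset (Fin R → ℤ)) (hS : S.Nonempty) (K : ℝ)
    (hK : ((Finset.image₂ (fun a b => a + b) S S).card : ℝ) ≤ K * S.card) :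
    ∃ a : Fin R → ℕ, Tr S a ∧ (2 : ℝ) ^ (Finset.univ.filter (fun j => a j ≠ 0)).card ≤ 2 * K ∧
      (S.card : ℝ) ≤ 4 * K * ((bx a : ℕ) : ℝ) ^ 2 := by
  classical
  have hc := card_osh R S
  have hne : (osh R S).Nonempty := by
    rw [← Finset.card_pos, hc]
    exact hS.card_pos
  have h1 : ((Finset.image₂ (fun a b => a + b) (osh R S) (osh R S)).card : ℝ) ≤
      K * (osh R S).card := by
    rw [hc]
    refine le_trans ?_ hK
    rw [← card_osh R (Finset.image₂ (fun a b => a + b) S S)]
    have h2 : (Finset.image₂ (fun a b => a + b) (osh R S) (osh R S)) ⊆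
        osh R (Finset.image₂ (fun a b => a + b) S S) := by
      intro z hz
      obtain ⟨a, ha, b, hb, rfl⟩ := Finset.mem_image₂.1 hz
      exact osh_add R S S a ha b hb
    exact_mod_cast Finset.card_le_card h2
  obtain ⟨a, ha, h2, h3⟩ := down_shape (osh R S) hne (osh_down R S) K h1
  rw [hc] at h3
  exact ⟨a, osh_tr R S a ha, h2, h3⟩

theorem bx_pos {r : ℕ} (a : Fin r → ℕ) : 0 < bx a := by
  unfold bx
  exact Finset.prod_pos fun j _ => Nat.succ_pos _

/-- a box can be made smaller -/
theorem exists_sub_box {r : ℕ} (T : ℕ) (hT : 1 ≤ T) : ∀ (M : ℕ) (a : Fin r → ℕ), ∑ j, a j = M →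
    T ≤ bx a → ∃ b : Fin r → ℕ, (∀ j, b j ≤ a j) ∧ bx b ≤ T ∧ T < 2 * bx b := by
  intro M
  induction M with
  | zero =>
    intro a ha hTa
    have h0 : ∀ j, a j = 0 := fun j => (Finset.sum_eq_zero_iff.1 ha) j (Finset.mem_univ j)
    have h1 : bx a = 1 := by
      unfold bx
      exact Finset.prod_eq_one fun j _ => by rw [h0 j, zero_add]
    exact ⟨a, fun _ => le_rfl, by omega, by omega⟩
  | succ M ih =>
    intro a ha hTa
    by_cases hle : bx a ≤ T
    · exact ⟨a, fun _ => le_rfl, hle, by omega⟩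
    have hpos : ∃ j, 0 < a j := by
      by_contra h
      push Not at h
      have : ∑ j, a j = 0 := Finset.sum_eq_zero fun j _ => Nat.le_zero.1 (h j)
      omega
    obtain ⟨j, hj⟩ := hpos
    obtain ⟨a', ha'⟩ : ∃ a' : Fin r → ℕ, a' = Function.update a j (a j - 1) := ⟨_, rfl⟩
    have hle' : ∀ i, a' i ≤ a i := by
      intro i
      rw [ha']
      rcases eq_or_ne i j with rfl | hij
      · rw [Function.update_self]
        omega
      · rw [Function.update_of_ne hij]
    have hsum : ∑ i, a' i = M := by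
      have h1 := Finset.add_sum_erase Finset.univ a (Finset.mem_univ j)
      have h2 := Finset.add_sum_erase Finset.univ a' (Finset.mem_univ j)
      have h3 : ∑ x ∈ Finset.univ.erase j, a' x = ∑ x ∈ Finset.univ.erase j, a x := by
        refine Finset.sum_congr rfl fun x hx => ?_
        rw [ha', Function.update_of_ne (Finset.ne_of_mem_erase hx)]
      have h4 : a' j = a j - 1 := by rw [ha', Function.update_self]
      rw [h3, h4] at h2
      omega
    have hbx : bx a ≤ 2 * bx a' := by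
      unfold bx
      rw [← Finset.mul_prod_erase Finset.univ _ (Finset.mem_univ j),
        ← Finset.mul_prod_erase Finset.univ (fun i => a' i + 1) (Finset.mem_univ j)]
      have h3 : ∏ x ∈ Finset.univ.erase j, (a' x + 1) = ∏ x ∈ Finset.univ.erase j, (a x + 1) := by
        refine Finset.prod_congr rfl fun x hx => ?_
        rw [ha', Function.update_of_ne (Finset.ne_of_mem_erase hx)]
      have h4 : a' j = a j - 1 := by rw [ha', Function.update_self]
      rw [h3, h4, ← mul_assoc]
      exact Nat.mul_le_mul_right _ (by omega)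
    by_cases hT' : T ≤ bx a'
    · obtain ⟨b, hb, h1, h2⟩ := ih a' hsum hT'
      exact ⟨b, fun i => (hb i).trans (hle' i), h1, h2⟩
    · exact ⟨a', hle', by omega, by omega⟩

/-- the leaves of a tree of shape `b`: they are determined by the coordinates in the support -/
theorem leaves {R : ℕ} (S : Finset (Fin R → ℤ)) (b : Fin R → ℕ) (h : Tr S b) :
    ∃ L : Finset (Fin R → ℤ), L ⊆ S ∧ L.card = bx b ∧
      ∀ x ∈ L, ∀ y ∈ L, (∀ j, b j ≠ 0 → x j = y j) → x = y := by
  classical
  obtain ⟨s, hs, hs2⟩ := h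
  obtain ⟨B, hB⟩ : ∃ B : Finset (Fin R → ℕ), B = Fintype.piFinset (fun j => Finset.range (b j + 1)) :=
    ⟨_, rfl⟩
  have memB : ∀ t, t ∈ B ↔ ∀ j, t j ≤ b j := by
    intro t
    rw [hB, Fintype.mem_piFinset]
    exact forall_congr' fun j => by rw [Finset.mem_range, Nat.lt_succ_iff]
  have hdet : ∀ t ∈ B, ∀ t' ∈ B, (∀ j, b j ≠ 0 → s t j = s t' j) → t = t' := by
    intro t ht t' ht' hst
    have key : ∀ n : ℕ, ∀ j : Fin R, (j : ℕ) < n → t j = t' j := by
      intro n
      induction n with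
      | zero => intro j hj; omega
      | succ n ih =>
        intro j hj
        rcases Nat.lt_succ_iff_lt_or_eq.1 hj with hlt | heq
        · exact ih j hlt
        · by_cases hb : b j = 0
          · have h1 := (memB t).1 ht j
            have h2 := (memB t').1 ht' j
            omega
          · refine (hs2 t t' ((memB t).1 ht) ((memB t').1 ht') j fun i hi => ih i ?_).1 (hst j hb)
            have : (i : ℕ) < j := hi
            omega
    funext j
    exact key R j j.2
  refine ⟨B.image s, ?_, ?_, ?_⟩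
  · intro x hx
    obtain ⟨t, ht, rfl⟩ := Finset.mem_image.1 hx
    exact hs t ((memB t).1 ht)
  · rw [Finset.card_image_of_injOn]
    · rw [hB, Fintype.card_piFinset]
      unfold bx
      exact Finset.prod_congr rfl fun j _ => Finset.card_range _
    · intro t ht t' ht' hst
      exact hdet t (Finset.mem_coe.1 ht) t' (Finset.mem_coe.1 ht') fun j _ => by rw [hst]
  · intro x hx y hy hxy
    obtain ⟨t, ht, rfl⟩ := Finset.mem_image.1 hx
    obtain ⟨t', ht', rfl⟩ := Finset.mem_image.1 hy
    rw [hdet t ht t' ht' hxy]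

theorem padicValRat_eq_zero (p : ℕ) (hp : p.Prime) (x : ℚ) (hx : x ≠ 0)
    (h1 : p ∉ x.num.natAbs.primeFactors) (h2 : p ∉ x.den.primeFactors) : padicValRat p x = 0 := by
  have hn : x.num.natAbs ≠ 0 := Int.natAbs_ne_zero.2 (Rat.num_ne_zero.2 hx)
  have h3 : ¬ p ∣ x.num.natAbs := fun h => h1 (Nat.mem_primeFactors.2 ⟨hp, h, hn⟩)
  have h4 : ¬ p ∣ x.den := fun h => h2 (Nat.mem_primeFactors.2 ⟨hp, h, x.den_ne_zero⟩)
  rw [padicValRat_def]
  unfold padicValInt
  rw [padicValNat.eq_zero_of_not_dvd h3, padicValNat.eq_zero_of_not_dvd h4]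
  simp

/-- **A set of positive rationals with small doubling** contains a subset of a prescribed size whose
elements are determined by few valuations. -/
theorem sub_tree (H : Finset ℚ) (hH : H.Nonempty) (hpos : ∀ h ∈ H, 0 < h) (K : ℝ)
    (hK : ((Finset.image₂ (fun a b => a * b) H H).card : ℝ) ≤ K * H.card) (T : ℕ) (hT1 : 1 ≤ T)
    (hT : 4 * K * (T : ℝ) ^ 2 ≤ H.card) :
    ∃ (r : ℕ) (pr : Fin r → ℕ) (P : Finset ℚ), P ⊆ H ∧ (∀ i, (pr i).Prime) ∧
      (2 : ℝ) ^ r ≤ 2 * K ∧ P.card ≤ T ∧ T < 2 * P.card ∧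
      ∀ s ∈ P, ∀ t ∈ P, (∀ i, padicValRat (pr i) s = padicValRat (pr i) t) → s = t := by
  classical
  obtain ⟨Q, hQ⟩ : ∃ Q : Finset ℕ, Q = H.biUnion (fun h =>
    h.num.natAbs.primeFactors ∪ h.den.primeFactors) := ⟨_, rfl⟩
  obtain ⟨R, hR⟩ : ∃ R : ℕ, Q.card = R := ⟨_, rfl⟩
  obtain ⟨q, hq⟩ : ∃ q : Fin R → ℕ, q = fun j => Q.orderEmbOfFin hR j := ⟨_, rfl⟩
  have hqQ : ∀ j, q j ∈ Q := by
    intro j
    rw [hq]
    exact Finset.orderEmbOfFin_mem Q hR j
  have hqp : ∀ j, (q j).Prime := by
    intro j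
    have h1 := hqQ j
    rw [hQ, Finset.mem_biUnion] at h1
    obtain ⟨h, _, h2⟩ := h1
    rcases Finset.mem_union.1 h2 with h3 | h3
    · exact (Nat.mem_primeFactors.1 h3).1
    · exact (Nat.mem_primeFactors.1 h3).1
  have hqs : ∀ p ∈ Q, ∃ j, q j = p := by
    intro p hp
    have h1 : p ∈ Set.range (Q.orderEmbOfFin hR) := by
      rw [Finset.range_orderEmbOfFin]
      exact hp
    obtain ⟨j, hj⟩ := h1
    exact ⟨j, by rw [hq]; exact hj⟩
  obtain ⟨v, hv⟩ : ∃ v : ℚ → (Fin R → ℤ), v = fun x j => padicValRat (q j) x := ⟨_, rfl⟩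
  have hvinj : Set.InjOn v H := by
    intro x hx y hy hxy
    have hx' := hpos x (Finset.mem_coe.1 hx)
    have hy' := hpos y (Finset.mem_coe.1 hy)
    have h1 : x / y = 1 := by
      refine eq_one_of_val _ (div_pos hx' hy') fun p hp => ?_
      have := Fact.mk hp
      rw [padicValRat.div hx'.ne' hy'.ne']
      by_cases hpQ : p ∈ Q
      · obtain ⟨j, rfl⟩ := hqs p hpQ
        have h2 := congrFun hxy j
        rw [hv] at h2
        have h3 : padicValRat (q j) x = padicValRat (q j) y := h2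
        rw [h3, sub_self]
      · have h2 : ∀ z ∈ H, padicValRat p z = 0 := by
          intro z hz
          have h3 : p ∉ z.num.natAbs.primeFactors ∪ z.den.primeFactors := by
            intro h3
            exact hpQ (by rw [hQ]; exact Finset.mem_biUnion.2 ⟨z, hz, h3⟩)
          rw [Finset.mem_union, not_or] at h3
          exact padicValRat_eq_zero p hp z (hpos z hz).ne' h3.1 h3.2
        rw [h2 x (Finset.mem_coe.1 hx), h2 y (Finset.mem_coe.1 hy), sub_self]
    exact (div_eq_one_iff_eq hy'.ne').1 h1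
  obtain ⟨S, hS⟩ : ∃ S : Finset (Fin R → ℤ), S = H.image v := ⟨_, rfl⟩
  have hSc : S.card = H.card := by rw [hS, Finset.card_image_of_injOn hvinj]
  have hSK : ((Finset.image₂ (fun a b => a + b) S S).card : ℝ) ≤ K * S.card := by
    rw [hSc]
    refine le_trans ?_ hK
    have h1 : (Finset.image₂ (fun a b => a + b) S S) ⊆
        (Finset.image₂ (fun a b => a * b) H H).image v := by
      intro z hz
      obtain ⟨a, ha, b, hb, rfl⟩ := Finset.mem_image₂.1 hz
      rw [hS] at ha hb
      obtain ⟨x, hx, rfl⟩ := Finset.mem_image.1 ha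
      obtain ⟨y, hy, rfl⟩ := Finset.mem_image.1 hb
      refine Finset.mem_image.2 ⟨x * y, Finset.mem_image₂_of_mem hx hy, ?_⟩
      funext j
      have := Fact.mk (hqp j)
      rw [hv]
      exact padicValRat.mul (hpos x hx).ne' (hpos y hy).ne'
    exact_mod_cast (Finset.card_le_card h1).trans Finset.card_image_le
  obtain ⟨a, haT, ha2, haC⟩ := exists_tree S (by rw [hS]; exact hH.image v) K hSK
  have hK0 : 0 < K := by
    have : (0 : ℝ) < 2 * K := lt_of_lt_of_le (by positivity) ha2
    linarith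
  have hTbx : T ≤ bx a := by
    rw [hSc] at haC
    have h1 : 4 * K * (T : ℝ) ^ 2 ≤ 4 * K * ((bx a : ℕ) : ℝ) ^ 2 := hT.trans haC
    have h2 := le_of_mul_le_mul_left h1 (by linarith)
    have h3 : (T : ℝ) ≤ ((bx a : ℕ) : ℝ) := by
      by_contra hcon
      rw [not_le] at hcon
      have h4 : (0 : ℝ) ≤ ((bx a : ℕ) : ℝ) := Nat.cast_nonneg _
      nlinarith
    exact_mod_cast h3
  obtain ⟨b, hba, hb1, hb2⟩ := exists_sub_box T hT1 _ a rfl hTbx
  obtain ⟨L, hLS, hLc, hL⟩ := leaves S b (haT.mono hba)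
  obtain ⟨J, hJ⟩ : ∃ J : Finset (Fin R), J = Finset.univ.filter (fun j => b j ≠ 0) := ⟨_, rfl⟩
  obtain ⟨r, hr⟩ : ∃ r : ℕ, J.card = r := ⟨_, rfl⟩
  have hJle : J.card ≤ (Finset.univ.filter (fun j => a j ≠ 0)).card := by
    refine Finset.card_le_card fun j hj => ?_
    rw [hJ, Finset.mem_filter] at hj
    rw [Finset.mem_filter]
    refine ⟨Finset.mem_univ j, fun h0 => hj.2 ?_⟩
    have := hba j
    omega
  refine ⟨r, fun i => q (J.orderEmbOfFin hr i), H.filter (fun h => v h ∈ L),
    Finset.filter_subset _ _, fun i => hqp _, ?_, ?_, ?_, ?_⟩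
  · refine le_trans ?_ ha2
    refine pow_le_pow_right₀ (by norm_num) ?_
    rw [← hr]
    exact hJle
  · have h1 : (H.filter (fun h => v h ∈ L)).card ≤ L.card := by
      refine Finset.card_le_card_of_injOn v ?_ ?_
      · intro h hh
        exact Finset.mem_coe.2 (Finset.mem_filter.1 (Finset.mem_coe.1 hh)).2
      · intro x hx y hy hxy
        exact hvinj (Finset.mem_coe.2 (Finset.mem_filter.1 (Finset.mem_coe.1 hx)).1)
          (Finset.mem_coe.2 (Finset.mem_filter.1 (Finset.mem_coe.1 hy)).1) hxy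
    omega
  · have h1 : L.card ≤ (H.filter (fun h => v h ∈ L)).card := by
      have h2 : L ⊆ (H.filter (fun h => v h ∈ L)).image v := by
        intro l hl
        have h3 := hLS hl
        rw [hS] at h3
        obtain ⟨h, hh, rfl⟩ := Finset.mem_image.1 h3
        exact Finset.mem_image.2 ⟨h, Finset.mem_filter.2 ⟨hh, hl⟩, rfl⟩
      exact (Finset.card_le_card h2).trans Finset.card_image_le
    omega
  · intro s hs t ht hst
    rw [Finset.mem_filter] at hs ht
    refine hvinj (Finset.mem_coe.2 hs.1) (Finset.mem_coe.2 ht.1) ?_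
    refine hL _ hs.2 _ ht.2 fun j hj => ?_
    have h1 : j ∈ Set.range (J.orderEmbOfFin hr) := by
      rw [Finset.range_orderEmbOfFin, hJ]
      exact Finset.mem_coe.2 (Finset.mem_filter.2 ⟨Finset.mem_univ j, hj⟩)
    obtain ⟨i, rfl⟩ := h1
    rw [hv]
    exact hst i

end Pool.Agent.Helper15.GPP
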