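import Pool.Agent.Helper28.GPP.Plun
import Pool.Agent.Helper15.GPP.Tree
import Pool.Agent.Helper15.GL.Main

set_option autoImplicit false

/-!
# Project GL++ (MP_120218), Abs: the structure of the multipliers which do not expand
-/

namespace Pool.Agent.Helper15.GPP

open Finset Pool.Agent.Helper15.GL
open scoped Pointwise

open Classical in
/-- a rational number as a unit -/
noncomputable def ut (x : ℚ) : ℚˣ := if h : x ≠ 0 then Units.mk0 x h else 1

theorem ut_val {x : ℚ} (h : x ≠ 0) : ((ut x : ℚˣ) : ℚ) = x := by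
  unfold ut
  rw [dif_pos h]
  rfl

theorem ut_inj {x y : ℚ} (hx : x ≠ 0) (hy : y ≠ 0) (h : ut x = ut y) : x = y := by
  rw [← ut_val hx, ← ut_val hy, h]

theorem ut_mul {x y : ℚ} (hx : x ≠ 0) (hy : y ≠ 0) : ut (x * y) = ut x * ut y := by
  apply Units.ext
  rw [ut_val (mul_ne_zero hx hy), Units.val_mul, ut_val hx, ut_val hy]

theorem card_abs_le (H : Finset ℚ) : H.card ≤ 2 * (H.image (fun h => |h|)).card := by
  classical
  refine Finset.card_le_mul_card_image H 2 fun t _ => ?_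
  have hsub : H.filter (fun h => |h| = t) ⊆ {t, -t} := by
    intro h hh
    have h1 := (Finset.mem_filter.1 hh).2
    rw [Finset.mem_insert, Finset.mem_singleton]
    rcases abs_choice h with h2 | h2
    · left
      rw [← h1, h2]
    · right
      rw [← h1, h2, neg_neg]
  exact (Finset.card_le_card hsub).trans Finset.card_le_two

/-- **Multipliers which do not expand** generate a set of positive rationals with small doubling
under which a large subset of `A` is almost invariant. -/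
theorem abs_struct (κ : ℝ) (hκ : 0 < κ) : ∃ τ N0 : ℝ, 0 < τ ∧ 1 ≤ N0 ∧
    ∀ (A : Finset ℤ) (P : Finset ℚ), P.Nonempty → (∀ s ∈ P, s ≠ 0) → N0 ≤ A.card →
      ((prd A P).card : ℝ) ≤ (A.card : ℝ) ^ (1 + τ) →
      ∃ (A' : Finset ℤ) (H : Finset ℚ), A' ⊆ A ∧ (A.card : ℝ) ≤ 4 * A'.card ∧ (∀ h ∈ H, 0 < h) ∧
        (P.card : ℝ) ≤ 2 * H.card ∧
        ((Finset.image₂ (fun a b => a * b) H H).card : ℝ) ≤ (A.card : ℝ) ^ κ * H.card ∧
        ((prd A' H).card : ℝ) ≤ (A.card : ℝ) ^ κ * A'.card := by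
  classical
  obtain ⟨τ, N1, hτ, hN1, hst⟩ := Pool.Agent.Helper28.GPP.structured (κ / 2) (by positivity)
  obtain ⟨N0, hN0⟩ : ∃ N0 : ℝ, N0 = 2 + 2 * N1 + 2 ^ (2 * (1 + τ) / τ) + 2 ^ (2 / κ) := ⟨_, rfl⟩
  have e1 : (0 : ℝ) < 2 ^ (2 * (1 + τ) / τ) := Real.rpow_pos_of_pos (by norm_num) _
  have e2 : (0 : ℝ) < 2 ^ (2 / κ) := Real.rpow_pos_of_pos (by norm_num) _
  refine ⟨τ / 2, N0, by positivity, by rw [hN0]; linarith, ?_⟩
  intro A P hP hP0 hAN hprd
  obtain ⟨N, hN⟩ : ∃ N : ℝ, N = A.card := ⟨_, rfl⟩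
  rw [← hN] at hAN hprd ⊢
  have hN2 : 2 ≤ N := by linarith
  have hNp : 0 < N := by linarith
  obtain ⟨A1, hA1⟩ : ∃ A1 : Finset ℤ, A1 = A.erase 0 := ⟨_, rfl⟩
  have hA10 : ∀ a ∈ A1, (a : ℚ) ≠ 0 := by
    intro a ha
    rw [hA1, Finset.mem_erase] at ha
    exact_mod_cast ha.1
  have hA1A : A1 ⊆ A := by rw [hA1]; exact Finset.erase_subset _ _
  have hA1c : N / 2 ≤ A1.card := by
    have h1 := Finset.pred_card_le_card_erase (s := A) (a := (0 : ℤ))
    rw [← hA1] at h1
    have h2 : (A.card : ℝ) ≤ A1.card + 1 := by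
      have : A.card ≤ A1.card + 1 := by omega
      exact_mod_cast this
    linarith
  have hA1N : (A1.card : ℝ) ≤ N := by
    rw [hN]
    exact_mod_cast Finset.card_le_card hA1A
  obtain ⟨Au, hAu⟩ : ∃ Au : Finset ℚˣ, Au = A1.image (fun a : ℤ => ut (a : ℚ)) := ⟨_, rfl⟩
  obtain ⟨Bu, hBu⟩ : ∃ Bu : Finset ℚˣ, Bu = P.image ut := ⟨_, rfl⟩
  have hAinj : Set.InjOn (fun a : ℤ => ut (a : ℚ)) A1 := by
    intro a ha b hb h
    have h1 := ut_inj (hA10 a (Finset.mem_coe.1 ha)) (hA10 b (Finset.mem_coe.1 hb)) h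
    exact_mod_cast h1
  have hBinj : Set.InjOn ut P := fun a ha b hb h =>
    ut_inj (hP0 a (Finset.mem_coe.1 ha)) (hP0 b (Finset.mem_coe.1 hb)) h
  have hAuc : Au.card = A1.card := by rw [hAu, Finset.card_image_of_injOn hAinj]
  have hBuc : Bu.card = P.card := by rw [hBu, Finset.card_image_of_injOn hBinj]
  have hprodc : (Au * Bu).card ≤ (prd A P).card := by
    have h1 : Au * Bu ⊆ (prd A P).image ut := by
      intro z hz
      obtain ⟨x, hx, y, hy, rfl⟩ := Finset.mem_mul.1 hz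
      rw [hAu] at hx
      rw [hBu] at hy
      obtain ⟨a, ha, rfl⟩ := Finset.mem_image.1 hx
      obtain ⟨s, hs, rfl⟩ := Finset.mem_image.1 hy
      refine Finset.mem_image.2 ⟨(a : ℚ) * s, ?_, ut_mul (hA10 a ha) (hP0 s hs)⟩
      exact Finset.mem_image₂_of_mem (hA1A ha) hs
    exact (Finset.card_le_card h1).trans Finset.card_image_le
  -- growth in the group of units
  have hτ2 : (2 : ℝ) ^ (1 + τ) ≤ N ^ (τ / 2) := by
    have h1 : (2 : ℝ) ^ (2 * (1 + τ) / τ) ≤ N := by linarith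
    have h2 := Real.rpow_le_rpow e1.le h1 (show 0 ≤ τ / 2 by positivity)
    rw [← Real.rpow_mul (by norm_num)] at h2
    have h3 : 2 * (1 + τ) / τ * (τ / 2) = 1 + τ := by
      field_simp
    rwa [h3] at h2
  have hgr : ((Au * Bu).card : ℝ) ≤ (Au.card : ℝ) ^ (1 + τ) := by
    have h1 : ((Au * Bu).card : ℝ) ≤ (prd A P).card := by exact_mod_cast hprodc
    refine h1.trans (hprd.trans ?_)
    have h2 : N ^ (1 + τ / 2) ≤ (N / 2) ^ (1 + τ) := by
      rw [Real.div_rpow hNp.le (by norm_num), le_div_iff₀ (Real.rpow_pos_of_pos (by norm_num) _)]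
      calc N ^ (1 + τ / 2) * 2 ^ (1 + τ) ≤ N ^ (1 + τ / 2) * N ^ (τ / 2) :=
            mul_le_mul_of_nonneg_left hτ2 (Real.rpow_nonneg hNp.le _)
        _ = N ^ (1 + τ) := by
            rw [← Real.rpow_add hNp]
            congr 1
            ring
    refine h2.trans (Real.rpow_le_rpow (by linarith) ?_ (by linarith))
    rw [hAuc]
    exact hA1c
  have hAuN : N1 ≤ (Au.card : ℝ) := by
    rw [hAuc]
    linarith
  obtain ⟨A'u, Hu, hA'u, hA'uc, hHc, hHH, hAH⟩ := hst ℚˣ Au Bu (by rw [hBu]; exact hP.image _)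
    hAuN hgr
  have hκ2 : (Au.card : ℝ) ^ (κ / 2) * 2 ≤ N ^ κ := by
    have h1 : (2 : ℝ) ^ (2 / κ) ≤ N := by linarith
    have h2 := Real.rpow_le_rpow e2.le h1 (show 0 ≤ κ / 2 by positivity)
    rw [← Real.rpow_mul (by norm_num)] at h2
    have h3 : 2 / κ * (κ / 2) = 1 := by
      field_simp
    rw [h3, Real.rpow_one] at h2
    have h4 : (Au.card : ℝ) ^ (κ / 2) ≤ N ^ (κ / 2) := by
      refine Real.rpow_le_rpow (Nat.cast_nonneg _) ?_ (by positivity)
      rw [hAuc]
      exact hA1N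
    calc (Au.card : ℝ) ^ (κ / 2) * 2 ≤ N ^ (κ / 2) * N ^ (κ / 2) :=
          mul_le_mul h4 h2 (by norm_num) (Real.rpow_nonneg hNp.le _)
      _ = N ^ κ := by
          rw [← Real.rpow_add hNp]
          congr 1
          ring
  obtain ⟨A', hA'⟩ : ∃ A' : Finset ℤ, A' = A1.filter (fun a : ℤ => ut (a : ℚ) ∈ A'u) := ⟨_, rfl⟩
  have hA'c : A'.card = A'u.card := by
    have h1 : A'.image (fun a : ℤ => ut (a : ℚ)) = A'u := by
      ext x
      rw [Finset.mem_image]
      constructor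
      · rintro ⟨a, ha, rfl⟩
        rw [hA', Finset.mem_filter] at ha
        exact ha.2
      · intro hx
        have h2 := hA'u hx
        rw [hAu] at h2
        obtain ⟨a, ha, rfl⟩ := Finset.mem_image.1 h2
        exact ⟨a, by rw [hA', Finset.mem_filter]; exact ⟨ha, hx⟩, rfl⟩
    rw [← h1, Finset.card_image_of_injOn]
    exact hAinj.mono (by rw [hA']; exact Finset.coe_subset.2 (Finset.filter_subset _ _))
  obtain ⟨H0, hH0⟩ : ∃ H0 : Finset ℚ, H0 = Hu.image (fun h : ℚˣ => (h : ℚ)) := ⟨_, rfl⟩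
  have hH0c : H0.card = Hu.card := by
    rw [hH0]
    exact Finset.card_image_of_injective _ Units.val_injective
  obtain ⟨H, hH⟩ : ∃ H : Finset ℚ, H = H0.image (fun h : ℚ => |h|) := ⟨_, rfl⟩
  have hH2 : (Hu.card : ℝ) ≤ 2 * H.card := by
    rw [← hH0c, hH]
    exact_mod_cast card_abs_le H0
  refine ⟨A', H, ?_, ?_, ?_, ?_, ?_, ?_⟩
  · rw [hA']
    exact (Finset.filter_subset _ _).trans hA1A
  · rw [hA'c]
    rw [hAuc] at hA'uc
    linarith
  · intro h hh
    rw [hH, hH0] at hh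
    obtain ⟨x, hx, rfl⟩ := Finset.mem_image.1 hh
    obtain ⟨y, _, rfl⟩ := Finset.mem_image.1 hx
    exact abs_pos.2 y.ne_zero
  · rw [hBuc] at hHc
    have : (P.card : ℝ) ≤ Hu.card := by exact_mod_cast hHc
    linarith
  · have h1 : (Finset.image₂ (fun a b => a * b) H H).card ≤ (Hu * Hu).card := by
      have h2 : Finset.image₂ (fun a b => a * b) H H ⊆
          (Hu * Hu).image (fun h : ℚˣ => |(h : ℚ)|) := by
        intro z hz
        obtain ⟨a, ha, b, hb, rfl⟩ := Finset.mem_image₂.1 hz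
        rw [hH, hH0] at ha hb
        obtain ⟨x, hx, rfl⟩ := Finset.mem_image.1 ha
        obtain ⟨x', hx', rfl⟩ := Finset.mem_image.1 hx
        obtain ⟨y, hy, rfl⟩ := Finset.mem_image.1 hb
        obtain ⟨y', hy', rfl⟩ := Finset.mem_image.1 hy
        refine Finset.mem_image.2 ⟨x' * y', Finset.mul_mem_mul hx' hy', ?_⟩
        rw [Units.val_mul, abs_mul]
      exact (Finset.card_le_card h2).trans Finset.card_image_le
    have h3 : ((Finset.image₂ (fun a b => a * b) H H).card : ℝ) ≤ (Hu * Hu).card := by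
      exact_mod_cast h1
    calc ((Finset.image₂ (fun a b => a * b) H H).card : ℝ) ≤ (Au.card : ℝ) ^ (κ / 2) * Hu.card :=
          h3.trans hHH
      _ ≤ (Au.card : ℝ) ^ (κ / 2) * (2 * H.card) :=
          mul_le_mul_of_nonneg_left hH2 (Real.rpow_nonneg (Nat.cast_nonneg _) _)
      _ = ((Au.card : ℝ) ^ (κ / 2) * 2) * H.card := by ring
      _ ≤ N ^ κ * H.card := mul_le_mul_of_nonneg_right hκ2 (Nat.cast_nonneg _)
  · have h1 : (prd A' H).card ≤ 2 * (A'u * Hu).card := by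
      have h2 : prd A' H ⊆ (A'u * Hu).image (fun h : ℚˣ => (h : ℚ)) ∪
          (A'u * Hu).image (fun h : ℚˣ => -(h : ℚ)) := by
        intro z hz
        unfold prd at hz
        obtain ⟨a, ha, b, hb, rfl⟩ := Finset.mem_image₂.1 hz
        rw [hH, hH0] at hb
        obtain ⟨y, hy, rfl⟩ := Finset.mem_image.1 hb
        obtain ⟨y', hy', rfl⟩ := Finset.mem_image.1 hy
        rw [hA', Finset.mem_filter] at ha
        have h3 : ut (a : ℚ) * y' ∈ A'u * Hu := Finset.mul_mem_mul ha.2 hy'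
        have h4 : ((ut (a : ℚ) * y' : ℚˣ) : ℚ) = a * y' := by
          rw [Units.val_mul, ut_val (hA10 a ha.1)]
        rw [Finset.mem_union, Finset.mem_image, Finset.mem_image]
        rcases abs_choice (y' : ℚ) with h5 | h5
        · left
          refine ⟨_, h3, ?_⟩
          rw [h4, h5]
        · right
          refine ⟨_, h3, ?_⟩
          rw [h4, h5]
          ring
      have h3 := (Finset.card_le_card h2).trans (Finset.card_union_le _ _)
      have h4 : ((A'u * Hu).image (fun h : ℚˣ => (h : ℚ))).card ≤ (A'u * Hu).card :=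
        Finset.card_image_le
      have h5 : ((A'u * Hu).image (fun h : ℚˣ => -(h : ℚ))).card ≤ (A'u * Hu).card :=
        Finset.card_image_le
      omega
    have h6 : ((prd A' H).card : ℝ) ≤ 2 * (A'u * Hu).card := by exact_mod_cast h1
    have h7 : (0 : ℝ) ≤ A'u.card := Nat.cast_nonneg _
    rw [hA'c]
    calc ((prd A' H).card : ℝ) ≤ 2 * ((Au.card : ℝ) ^ (κ / 2) * A'u.card) := by linarith
      _ = ((Au.card : ℝ) ^ (κ / 2) * 2) * A'u.card := by ring
      _ ≤ N ^ κ * A'u.card := mul_le_mul_of_nonneg_right hκ2 h7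

end Pool.Agent.Helper15.GPP
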