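import Pool.Agent.Helper28.LN.Sharp
import Pool.Agent.Helper15.GL.Opt

set_option autoImplicit false

/-!
# Project GL++ (MP_120218), Sharp2: optimality for every rank and every length
-/

namespace Pool.Agent.Helper15.GPP

open Finset Pool.Agent.Helper15.GL Pool.Agent.Helper28.LN

/-- one extremal family for all the bounds -/
theorem sharp2 (η : ℝ) (hη : 0 < η) : ∃ c : ℝ, 0 < c ∧ ∀ r n : ℕ, 1 ≤ r → 1 ≤ n →
    ∃ (A : Finset ℤ) (p : Fin r → ℕ), (∀ i, (p i).Prime) ∧ Function.Injective p ∧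
      (n : ℝ) * r * Real.log (r + 1) ≤ Real.log A.card ∧
      c * Real.log A.card ≤ (n : ℝ) * r * Real.log (r + 1) ∧
      (∀ k : ℕ, (((Fintype.piFinset (fun _ : Fin k => A)).image
        (fun f : Fin k → ℤ => ∑ i, f i)).card : ℝ) ≤ ((k : ℝ) + 1) * (A.card : ℝ) ^ (1 + η)) ∧
      (∀ i, (n : ℝ) * (bad ((p i : ℕ) : ℚ) A).card ≤ A.card) ∧
      (∀ a ∈ A, n ^ r ≤ {b : ℤ | b ∈ A ∧ ∃ e : Fin r → ℤ,
        (b : ℚ) = a * ∏ i, (p i : ℚ) ^ e i}.ncard) ∧
      (gprog (fun i => (p i : ℚ)) 1).card = 3 ^ r ∧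
      n ^ r * (prd A (gprog (fun i => (p i : ℚ)) 1)).card ≤ (n + 2) ^ r * A.card := by
  classical
  refine ⟨1 / (16 / η + 4), by positivity, fun r n hr hn => ?_⟩
  obtain ⟨p, hpd⟩ : ∃ p : Fin r → ℕ, p = fun i : Fin r => Nat.nth Nat.Prime i := ⟨_, rfl⟩
  have hp : ∀ i, (p i).Prime := by
    intro i
    rw [hpd]
    exact Nat.prime_nth_prime _
  have hinj : Function.Injective p := by
    intro i j h
    rw [hpd] at h
    exact Fin.ext (Nat.nth_injective Nat.infinite_setOfPred_prime h)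
  have hple : ∀ i, p i ≤ 4 * (r + 1) ^ 2 := by
    intro i
    rw [hpd]
    exact nth_prime_le r i i.2
  obtain ⟨D, hD⟩ : ∃ D : ℕ, D = ∏ i, p i := ⟨_, rfl⟩
  have hDi : ∀ i, p i ∣ D := by
    intro i
    rw [hD]
    exact Finset.dvd_prod_of_mem _ (Finset.mem_univ i)
  have hD0 : 0 < D := by
    rw [hD]
    exact Finset.prod_pos fun i _ => (hp i).pos
  have hDR : (1 : ℝ) ≤ D := by exact_mod_cast hD0
  have hr1 : (1 : ℝ) ≤ r := by exact_mod_cast hr
  have hn1 : (1 : ℝ) ≤ n := by exact_mod_cast hn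
  have hlog2 : (1 / 2 : ℝ) ≤ Real.log 2 := by
    have := Real.log_two_gt_d9
    linarith
  have hlr : Real.log 2 ≤ Real.log (r + 1) :=
    Real.log_le_log (by norm_num) (by linarith)
  obtain ⟨Z, hZ⟩ : ∃ Z : ℝ, Z = (n : ℝ) * r * Real.log (r + 1) := ⟨_, rfl⟩
  have hnr : 1 ≤ (n : ℝ) * r := by nlinarith
  have hZ1 : Real.log 2 ≤ Z := by
    rw [hZ]
    nlinarith
  have hZ0 : 0 < Z := by linarith
  have hZnr : (n : ℝ) * r ≤ 2 * Z := by
    rw [hZ]
    have h1 := mul_le_mul_of_nonneg_left (hlog2.trans hlr) (show 0 ≤ (n : ℝ) * r by linarith)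
    linarith
  have hlD : Real.log D ≤ 4 * (r * Real.log (r + 1)) := by
    rw [hD, Nat.cast_prod, Real.log_prod (fun i _ => by
      have := (hp i).pos
      positivity)]
    have h1 : ∀ i ∈ (univ : Finset (Fin r)), Real.log (p i) ≤ 4 * Real.log (r + 1) := by
      intro i _
      have h2 : (p i : ℝ) ≤ 4 * (r + 1) ^ 2 := by exact_mod_cast hple i
      have h3 : (0 : ℝ) < p i := by exact_mod_cast (hp i).pos
      have h4 := Real.log_le_log h3 h2
      rw [Real.log_mul (by norm_num) (by positivity), Real.log_pow] at h4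
      have h5 : Real.log 4 = 2 * Real.log 2 := by
        rw [show (4 : ℝ) = 2 ^ 2 by norm_num, Real.log_pow]
        norm_num
      rw [h5] at h4
      push_cast at h4
      linarith
    refine (Finset.sum_le_sum h1).trans ?_
    rw [Finset.sum_const, Finset.card_univ, Fintype.card_fin, nsmul_eq_mul]
    exact le_of_eq (by ring)
  have hlD0 : 0 ≤ Real.log D := Real.log_nonneg hDR
  have hlD2 : ((n : ℝ) + 1) * Real.log D ≤ 8 * Z := by
    have h1 := mul_le_mul_of_nonneg_left hlD (show 0 ≤ (n : ℝ) + 1 by linarith)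
    have h2 : ((n : ℝ) + 1) * (4 * (r * Real.log (r + 1))) ≤
        (2 * n) * (4 * (r * Real.log (r + 1))) := by
      refine mul_le_mul_of_nonneg_right (by linarith) ?_
      have : 0 ≤ Real.log ((r : ℝ) + 1) := by linarith
      positivity
    rw [hZ]
    linarith
  obtain ⟨W, hW⟩ : ∃ W : ℝ, W = (8 / η + 1) * Z := ⟨_, rfl⟩
  have hWZ : Z ≤ W := by
    rw [hW]
    have : 0 < 8 / η * Z := by positivity
    linarith
  have hηW : 8 * Z ≤ η * W := by
    rw [hW]
    have h1 : η * ((8 / η + 1) * Z) = 8 * Z + η * Z := by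
      field_simp
    rw [h1]
    have : 0 < η * Z := by positivity
    linarith
  obtain ⟨T, hT⟩ : ∃ T : ℕ, T = ⌈Real.exp W⌉₊ := ⟨_, rfl⟩
  have hTe : Real.exp W ≤ T := by rw [hT]; exact Nat.le_ceil _
  have hT0 : (0 : ℝ) < T := lt_of_lt_of_le (Real.exp_pos W) hTe
  have hTlog : W ≤ Real.log T := by
    rw [Real.le_log_iff_exp_le hT0]
    exact hTe
  have hT1 : (1 : ℝ) ≤ T := by
    have : 1 ≤ T := by
      have : 0 < T := by exact_mod_cast hT0
      omega
    exact_mod_cast this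
  have hTup : Real.log T ≤ 2 * W := by
    have h1 : (T : ℝ) ≤ 2 * Real.exp W := by
      have h2 : (T : ℝ) < Real.exp W + 1 := by
        rw [hT]
        exact Nat.ceil_lt_add_one (Real.exp_pos W).le
      have h3 : 1 ≤ Real.exp W := Real.one_le_exp (by linarith)
      linarith
    have h2 := Real.log_le_log hT0 h1
    rw [Real.log_mul (by norm_num) (Real.exp_pos W).ne', Real.log_exp] at h2
    linarith
  have hA : (optA p D T n).card = T * n ^ r := card_optA p hp hinj D T n hDi hD0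
  have hAR : ((optA p D T n).card : ℝ) = T * (n : ℝ) ^ r := by rw [hA]; push_cast; ring
  have hnrp : (1 : ℝ) ≤ (n : ℝ) ^ r := one_le_pow₀ hn1
  have hAT : (T : ℝ) ≤ (optA p D T n).card := by
    rw [hAR]
    nlinarith
  have hA1 : (1 : ℝ) ≤ (optA p D T n).card := hT1.trans hAT
  have hlogA : Real.log (optA p D T n).card ≤ (16 / η + 4) * Z := by
    rw [hAR, Real.log_mul (by linarith) (by positivity), Real.log_pow]
    have h1 : Real.log n ≤ n - 1 := Real.log_le_sub_one_of_pos (by linarith)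
    have h2 : (r : ℝ) * Real.log n ≤ r * n :=
      mul_le_mul_of_nonneg_left (by linarith) (by linarith)
    have h3 : 2 * W = (16 / η + 2) * Z := by rw [hW]; ring
    linarith
  have hgp : ∀ i, (fun i => (p i : ℚ)) i ≠ 0 := fun i => Nat.cast_ne_zero.2 (hp i).ne_zero
  have hcg : (gprog (fun i => (p i : ℚ)) 1).card = 3 ^ r := by
    rw [card_gprog_eq _ hgp, card_gprogN p hp hinj]
  refine ⟨optA p D T n, p, hp, hinj, ?_, ?_, ?_, ?_, ?_, hcg, ?_⟩
  · rw [← hZ]
    exact hWZ.trans (hTlog.trans (Real.log_le_log hT0 hAT))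
  · rw [← hZ, one_div, inv_mul_le_iff₀ (by positivity)]
    exact hlogA
  · intro k
    have h1 := sum_optA p hp D T n hD hD0 k
    have h2 : (((Fintype.piFinset (fun _ : Fin k => optA p D T n)).image
        (fun f : Fin k → ℤ => ∑ i, f i)).card : ℝ) ≤ k * (T * (D : ℝ) ^ (n + 1)) + 1 := by
      exact_mod_cast h1
    refine h2.trans ?_
    have h3 : (T : ℝ) * (D : ℝ) ^ (n + 1) ≤ ((optA p D T n).card : ℝ) ^ (1 + η) := by
      have h4 : (D : ℝ) ^ (n + 1) ≤ (T : ℝ) ^ η := by
        rw [← Real.log_le_log_iff (by positivity) (by positivity), Real.log_pow,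
          Real.log_rpow hT0]
        push_cast
        have h5 := mul_le_mul_of_nonneg_left hTlog hη.le
        linarith
      calc (T : ℝ) * (D : ℝ) ^ (n + 1) ≤ T * (T : ℝ) ^ η :=
            mul_le_mul_of_nonneg_left h4 (by linarith)
        _ = (T : ℝ) ^ (1 + η) := by rw [Real.rpow_add hT0, Real.rpow_one]
        _ ≤ _ := Real.rpow_le_rpow hT0.le hAT (by linarith)
    have hk : (0 : ℝ) ≤ k := Nat.cast_nonneg k
    have h5 : (1 : ℝ) ≤ ((optA p D T n).card : ℝ) ^ (1 + η) :=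
      Real.one_le_rpow hA1 (by linarith)
    calc (k : ℝ) * (T * (D : ℝ) ^ (n + 1)) + 1 ≤
          k * ((optA p D T n).card : ℝ) ^ (1 + η) + ((optA p D T n).card : ℝ) ^ (1 + η) :=
            add_le_add (mul_le_mul_of_nonneg_left h3 hk) h5
      _ = _ := by ring
  · intro i
    rw [hA]
    exact_mod_cast bad_optA p D T n i
  · intro a ha
    refine (rich_opt p hp hinj D T n n le_rfl a ha).trans ?_
    rw [← Set.ncard_coe_finset]
    refine Set.ncard_le_ncard ?_ ?_
    · intro b hb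
      obtain ⟨hbA, s, hs, hbs⟩ := mem_rich.1 (Finset.mem_coe.1 hb)
      unfold gprog at hs
      obtain ⟨e, _, rfl⟩ := Finset.mem_image.1 hs
      exact ⟨hbA, e, hbs⟩
    · exact (Finset.finite_toSet (optA p D T n)).subset fun b hb => Finset.mem_coe.2 hb.1
  · have h1 : (prd (optA p D T n) (gprog (fun i => (p i : ℚ)) 1)).card ≤ T * (n + 2 * 1) ^ r :=
      (card_prd_eq _ hgp 1 (optA p D T n)).trans (card_prd_opt p D T n 1)
    rw [hA]
    calc n ^ r * (prd (optA p D T n) (gprog (fun i => (p i : ℚ)) 1)).card ≤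
          n ^ r * (T * (n + 2 * 1) ^ r) := Nat.mul_le_mul_left _ h1
      _ = (n + 2) ^ r * (T * n ^ r) := by ring

end Pool.Agent.Helper15.GPP
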