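import Pool.Agent.Helper15.GPP.Result
import Pool.Agent.Helper15.GPP.Sharp2

set_option autoImplicit false

/-!
# Project GL++ (MP_120218), Final: the sums-alone theorem, with `kA`, and its sharpness
-/

namespace Pool.Agent.Helper15.GPP

open Finset Pool.Agent.Helper15.GL Pool.Agent.Helper15.GLP Pool.Agent.Helper28.LN

/-- `kA` -/
def kS (k : ℕ) (A : Finset ℤ) : Finset ℤ :=
  (Fintype.piFinset (fun _ : Fin k => A)).image (fun f : Fin k → ℤ => ∑ i, f i)

theorem kS_card_le (k : ℕ) (A : Finset ℤ) : (kS k A).card ≤ A.card ^ k := by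
  unfold kS
  refine Finset.card_image_le.trans ?_
  rw [Fintype.card_piFinset]
  simp

theorem kS_zero (A : Finset ℤ) : (kS 0 A).card = 1 := by
  unfold kS
  rw [Finset.card_eq_one]
  refine ⟨0, ?_⟩
  ext z
  rw [Finset.mem_image, Finset.mem_singleton]
  constructor
  · rintro ⟨f, _, rfl⟩
    simp
  · rintro rfl
    exact ⟨fun i => i.elim0, Fintype.mem_piFinset.2 fun i => i.elim0, by simp⟩

theorem kS_nonempty (k : ℕ) (A : Finset ℤ) (hA : A.Nonempty) : (kS k A).Nonempty := by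
  unfold kS
  obtain ⟨a, ha⟩ := hA
  exact ⟨_, Finset.mem_image_of_mem _ (Fintype.mem_piFinset.2 fun _ => ha)⟩

theorem kS_succ (k : ℕ) (A : Finset ℤ) :
    Finset.image₂ (fun a d => a + d) A (kS k A) ⊆ kS (k + 1) A := by
  intro z hz
  obtain ⟨a, ha, d, hd, rfl⟩ := Finset.mem_image₂.1 hz
  unfold kS at hd
  obtain ⟨f, hf, rfl⟩ := Finset.mem_image.1 hd
  rw [Fintype.mem_piFinset] at hf
  unfold kS
  refine Finset.mem_image.2 ⟨Fin.cons a f, ?_, ?_⟩
  · rw [Fintype.mem_piFinset]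
    intro i
    induction i using Fin.cases with
    | zero => exact ha
    | succ i => exact hf i
  · rw [Fin.sum_univ_succ]
    simp

/-- iteration of the first alternative -/
theorem kS_large (ε c : ℝ) (hε : 0 ≤ ε) (hc : 0 < c) (A : Finset ℤ) (hA : A.Nonempty)
    (h : AllD ε c A) (k : ℕ) :
    c ^ k * (A.card : ℝ) ^ ((k : ℝ) - ε * (k * (k + 1))) ≤ (kS k A).card := by
  have hA1 : (1 : ℝ) ≤ A.card := by exact_mod_cast hA.card_pos
  have hA0 : (0 : ℝ) < A.card := by linarith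
  induction k with
  | zero =>
    rw [kS_zero]
    simp
  | succ k ih =>
    have hne := kS_nonempty k A hA
    have h1 := h (kS k A) hne
    have h2 : ((Finset.image₂ (fun a d => a + d) A (kS k A)).card : ℝ) ≤ (kS (k + 1) A).card := by
      exact_mod_cast Finset.card_le_card (kS_succ k A)
    refine le_trans ?_ (h1.trans h2)
    have hk1 : (1 : ℝ) ≤ (kS k A).card := by exact_mod_cast hne.card_pos
    have hkN : ((kS k A).card : ℝ) ≤ (A.card : ℝ) ^ (k : ℝ) := by
      rw [Real.rpow_natCast]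
      exact_mod_cast kS_card_le k A
    have hAk : (A.card : ℝ) * (kS k A).card ≤ (A.card : ℝ) ^ ((k : ℝ) + 1) := by
      calc (A.card : ℝ) * (kS k A).card ≤ A.card * (A.card : ℝ) ^ (k : ℝ) :=
            mul_le_mul_of_nonneg_left hkN hA0.le
        _ = (A.card : ℝ) ^ ((k : ℝ) + 1) := by
            rw [Real.rpow_add hA0, Real.rpow_one]
            ring
    have hpos : (0 : ℝ) < (A.card : ℝ) * (kS k A).card := by positivity
    have h3 : (A.card : ℝ) ^ (-(ε * (k + 1))) ≤ ((A.card : ℝ) * (kS k A).card) ^ (-ε) := by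
      have h4 : (((A.card : ℝ) ^ ((k : ℝ) + 1))) ^ (-ε) ≤ ((A.card : ℝ) * (kS k A).card) ^ (-ε) :=
        Real.rpow_le_rpow_of_nonpos hpos hAk (by linarith)
      rw [← Real.rpow_mul hA0.le] at h4
      have h5 : ((k : ℝ) + 1) * -ε = -(ε * (k + 1)) := by ring
      rwa [h5] at h4
    have h6 : ((A.card : ℝ) * (kS k A).card) ^ (1 - ε) =
        (A.card : ℝ) * (kS k A).card * ((A.card : ℝ) * (kS k A).card) ^ (-ε) := by
      rw [sub_eq_add_neg, Real.rpow_add hpos, Real.rpow_one]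
    rw [h6]
    have h7 : c ^ (k + 1) * (A.card : ℝ) ^ (((k + 1 : ℕ) : ℝ) - ε * (((k + 1 : ℕ) : ℝ) *
        (((k + 1 : ℕ) : ℝ) + 1))) ≤ c * ((A.card : ℝ) * (c ^ k * (A.card : ℝ) ^ ((k : ℝ) - ε *
          (k * (k + 1)))) * (A.card : ℝ) ^ (-(ε * (k + 1)))) := by
      have e1 : c * ((A.card : ℝ) * (c ^ k * (A.card : ℝ) ^ ((k : ℝ) - ε *
          (k * (k + 1)))) * (A.card : ℝ) ^ (-(ε * (k + 1)))) =
          c ^ (k + 1) * ((A.card : ℝ) ^ (1 : ℝ) * (A.card : ℝ) ^ ((k : ℝ) - ε *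
          (k * (k + 1))) * (A.card : ℝ) ^ (-(ε * (k + 1)))) := by
        rw [Real.rpow_one]
        ring
      rw [e1, ← Real.rpow_add hA0, ← Real.rpow_add hA0]
      refine mul_le_mul_of_nonneg_left (Real.rpow_le_rpow_of_exponent_le hA1 ?_) (by positivity)
      push_cast
      have hk0 : (0 : ℝ) ≤ k := Nat.cast_nonneg k
      nlinarith [mul_nonneg hε hk0]
    refine h7.trans ?_
    refine mul_le_mul_of_nonneg_left ?_ hc.le
    refine mul_le_mul (mul_le_mul_of_nonneg_left ih hA0.le) h3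
      (Real.rpow_nonneg hA0.le _) (by positivity)

/-- **The sums-alone theorem.** -/
theorem final :
    (∀ k : ℕ, ∀ ε δ : ℝ, 0 < ε → 0 < δ → ∃ C c : ℝ, 0 < C ∧ 0 < c ∧
      ∀ A : Finset ℤ, A.Nonempty →
        ((∀ D : Finset ℤ, D.Nonempty → c * ((A.card : ℝ) * D.card) ^ (1 - ε) ≤
            ((Finset.image₂ (fun a d => a + d) A D).card : ℝ)) ∧
          c * (A.card : ℝ) ^ ((k : ℝ) - ε) ≤
            (((Fintype.piFinset (fun _ : Fin k => A)).image
              (fun f : Fin k → ℤ => ∑ i, f i)).card : ℝ)) ∨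
        ((∀ P : Finset ℚ, (∀ s ∈ P, s ≠ 0) → (A.card : ℝ) ^ δ ≤ P.card →
            (A.card : ℝ) ^ (1 + c) ≤
              ((Finset.image₂ (fun (a : ℤ) (s : ℚ) => (a : ℚ) * s) A P).card : ℝ)) ∧
         (∀ (r : ℕ) (g : Fin r → ℚ), 1 ≤ r → (∀ i, g i ≠ 0) →
            ({a : ℤ | a ∈ A ∧ (1 + C * Real.log (A.card : ℝ) / r) ^ r <
              ({b : ℤ | b ∈ A ∧ ∃ e : Fin r → ℤ, (b : ℚ) = a * ∏ i, g i ^ e i ∨
                (b : ℚ) = -(a * ∏ i, g i ^ e i)}.ncard : ℝ)}.ncard : ℝ) ≤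
              (A.card : ℝ) ^ (1 - c)) ∧
         (∀ (S : Finset ℤ) (P : Finset ℕ) (R : ℝ), S ⊆ A →
            (A.card : ℝ) ^ (1 - c) ≤ S.card → (∀ p ∈ P, p.Prime) → C ≤ R →
            (∀ p ∈ P, R * ((S.filter (fun a : ℤ => (p : ℤ) * a ∉ S)).card : ℝ) ≤ S.card) →
            R * P.card * Real.log (P.card + 1) < C * Real.log (A.card : ℝ)))) ∧
    (∀ η : ℝ, 0 < η → ∃ c : ℝ, 0 < c ∧ ∀ r n : ℕ, 1 ≤ r → 1 ≤ n →
      ∃ (A : Finset ℤ) (p : Fin r → ℕ), (∀ i, (p i).Prime) ∧ Function.Injective p ∧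
        (n : ℝ) * r * Real.log (r + 1) ≤ Real.log (A.card : ℝ) ∧
        c * Real.log (A.card : ℝ) ≤ (n : ℝ) * r * Real.log (r + 1) ∧
        (∀ k : ℕ, (((Fintype.piFinset (fun _ : Fin k => A)).image
          (fun f : Fin k → ℤ => ∑ i, f i)).card : ℝ) ≤
            ((k : ℝ) + 1) * (A.card : ℝ) ^ (1 + η)) ∧
        (∀ i, (n : ℝ) * ((A.filter (fun a : ℤ => (p i : ℤ) * a ∉ A)).card : ℝ) ≤ A.card) ∧
        (∀ a ∈ A, n ^ r ≤ {b : ℤ | b ∈ A ∧ ∃ e : Fin r → ℤ,
          (b : ℚ) = a * ∏ i, (p i : ℚ) ^ e i}.ncard) ∧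
        ∀ P : Finset ℚ, P = (Fintype.piFinset (fun _ : Fin r => Finset.Icc (-1 : ℤ) 1)).image
            (fun e => ∏ i, (p i : ℚ) ^ e i) →
          P.card = 3 ^ r ∧
          n ^ r * (Finset.image₂ (fun (a : ℤ) (s : ℚ) => (a : ℚ) * s) A P).card ≤
            (n + 2) ^ r * A.card) := by
  classical
  constructor
  · intro k ε δ hε hδ
    have hk0 : (0 : ℝ) ≤ k := Nat.cast_nonneg k
    have hkk : (0 : ℝ) < (k : ℝ) * (k + 1) + 1 := by positivity
    obtain ⟨ε', hε'⟩ : ∃ ε' : ℝ, ε' = ε / ((k : ℝ) * (k + 1) + 1) := ⟨_, rfl⟩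
    have hε'0 : 0 < ε' := by rw [hε']; positivity
    have hε'1 : ε' ≤ ε := by
      rw [hε', div_le_iff₀ hkk]
      nlinarith [mul_nonneg hε.le (mul_nonneg hk0 (show (0 : ℝ) ≤ k + 1 by linarith))]
    have hε'2 : ε' * (k * (k + 1)) ≤ ε := by
      rw [hε', div_mul_eq_mul_div, div_le_iff₀ hkk]
      nlinarith [mul_nonneg hε.le (mul_nonneg hk0 (show (0 : ℝ) ≤ k + 1 by linarith))]
    obtain ⟨C, c', hC, hc', h⟩ := dichotomy ε' δ hε'0 hδ
    obtain ⟨c, hcd⟩ : ∃ c : ℝ, c = min c' (c' ^ k) := ⟨_, rfl⟩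
    have hc0 : 0 < c := by rw [hcd]; exact lt_min hc' (by positivity)
    have hcc' : c ≤ c' := by rw [hcd]; exact min_le_left _ _
    have hcck : c ≤ c' ^ k := by rw [hcd]; exact min_le_right _ _
    refine ⟨C, c, hC, hc0, fun A hA => ?_⟩
    have hA1 : (1 : ℝ) ≤ A.card := by exact_mod_cast hA.card_pos
    have hA0 : (0 : ℝ) < A.card := by linarith
    rcases h A hA with h1 | ⟨h1, h2, h3⟩
    · left
      constructor
      · intro D hD
        have hD1 : (1 : ℝ) ≤ D.card := by exact_mod_cast hD.card_pos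
        have hAD1 : (1 : ℝ) ≤ (A.card : ℝ) * D.card := by nlinarith
        refine le_trans ?_ (h1 D hD)
        refine mul_le_mul hcc' ?_ (by positivity) hc'.le
        exact Real.rpow_le_rpow_of_exponent_le hAD1 (by linarith)
      · have h4 := kS_large ε' c' hε'0.le hc' A hA h1 k
        refine le_trans ?_ h4
        refine mul_le_mul hcck ?_ (by positivity) (by positivity)
        exact Real.rpow_le_rpow_of_exponent_le hA1 (by linarith)
    · right
      refine ⟨?_, ?_, ?_⟩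
      · intro P hP hPc
        exact (Real.rpow_le_rpow_of_exponent_le hA1 (by linarith)).trans (h2 P hP hPc)
      · intro r g hr hg
        exact (h1 r g hr hg).trans (Real.rpow_le_rpow_of_exponent_le hA1 (by linarith))
      · intro S P R hSA hS hP hCR hbad
        exact h3 S P R hSA ((Real.rpow_le_rpow_of_exponent_le hA1 (by linarith)).trans hS) hP hCR
          hbad
  · intro η hη
    obtain ⟨c, hc, h⟩ := sharp2 η hη
    refine ⟨c, hc, fun r n hr hn => ?_⟩
    obtain ⟨A, p, hp, hinj, h1, h2, h3, h4, h5, h6, h7⟩ := h r n hr hn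
    refine ⟨A, p, hp, hinj, h1, h2, h3, ?_, h5, ?_⟩
    · intro i
      have h8 := h4 i
      have h9 : (bad ((p i : ℕ) : ℚ) A).card =
          (A.filter (fun a : ℤ => ((p i : ℕ) : ℤ) * a ∉ A)).card := by
        unfold bad
        congr 1
        ext a
        rw [Finset.mem_filter, Finset.mem_filter]
        refine and_congr_right fun _ => ⟨fun h hb => h _ hb ?_, fun h b hb hba => h ?_⟩
        · push_cast
          ring
        · have h10 : ((b : ℤ) : ℚ) = ((((p i : ℕ) : ℤ) * a : ℤ) : ℚ) := by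
            rw [hba]
            push_cast
            ring
          rw [← Int.cast_injective h10]
          exact hb
      rw [h9] at h8
      exact h8
    · intro P hP
      subst hP
      have h10 : (Fintype.piFinset (fun _ : Fin r => Finset.Icc (-1 : ℤ) 1)).image
          (fun e => ∏ i, (p i : ℚ) ^ e i) = gprog (fun i => (p i : ℚ)) 1 := by
        unfold gprog
        norm_num
      rw [h10]
      exact ⟨h6, h7⟩

end Pool.Agent.Helper15.GPP
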