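import Pool.Agent.Helper15.GPP.Abs
import Pool.Agent.Helper15.GPP.GrowS

set_option autoImplicit false

/-!
# Project GL++ (MP_120218), Free: multiplication by any `N ^ δ` rationals expands a set with
non-maximal sumsets
-/

namespace Pool.Agent.Helper15.GPP

open Finset Pool.Agent.Helper15.GL Pool.Agent.Helper15.GLP

theorem growsB_of_sub (η B : ℝ) (hη : 0 < η) (hη1 : η ≤ 1) (hB : 0 ≤ B) (A A' : Finset ℤ)
    (hA'A : A' ⊆ A) (hA' : A'.Nonempty) (h4 : (A.card : ℝ) ≤ 4 * A'.card)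
    (ha : 2 * Real.log 4 ≤ η * Real.log A.card) (hb : (B + 1) * Real.log 4 ≤ Real.log A.card)
    (hG : GrowsB (η / 2) (B + 1) A') : GrowsB η B A := by
  intro X hX hXB
  have hA'1 : (1 : ℝ) ≤ A'.card := by exact_mod_cast hA'.card_pos
  have hA1 : (1 : ℝ) ≤ A.card := by exact_mod_cast (hA'.mono hA'A).card_pos
  have hX1 : (1 : ℝ) ≤ X.card := by exact_mod_cast hX.card_pos
  have hx : 0 ≤ Real.log X.card := Real.log_nonneg hX1
  have h1 : Real.log A.card ≤ Real.log 4 + Real.log A'.card := by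
    rw [← Real.log_mul (by norm_num) (by linarith)]
    exact Real.log_le_log (by linarith) h4
  have hl4 : 0 < Real.log 4 := Real.log_pos (by norm_num)
  have h2 : Real.log X.card ≤ (B + 1) * Real.log A'.card := by
    have h3 := mul_le_mul_of_nonneg_left h1 (show 0 ≤ B + 1 by linarith)
    linarith
  have h3 := hG X hX h2
  have h4' : (0 : ℝ) < (Finset.image₂ (fun a b => a + b) X A').card := by
    exact_mod_cast Finset.card_pos.2 (hX.image₂ hA')
  have h5 : ((Finset.image₂ (fun a b => a + b) X A').card : ℝ) ≤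
      (Finset.image₂ (fun a b => a + b) X A).card := by
    exact_mod_cast Finset.card_le_card (Finset.image₂_subset_left hA'A)
  have h6 := Real.log_le_log h4' h5
  refine le_trans ?_ (h3.trans h6)
  have h7 : (1 - η / 2) * (Real.log A.card - Real.log 4) ≤ (1 - η / 2) * Real.log A'.card :=
    mul_le_mul_of_nonneg_left (by linarith) (by linarith)
  have h8 : 0 ≤ η * Real.log X.card := mul_nonneg hη.le hx
  have h9 : 0 ≤ η * Real.log 4 := mul_nonneg hη.le hl4.le
  nlinarith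

theorem prd_card_mono (A : Finset ℤ) {P Q : Finset ℚ} (h : P ⊆ Q) :
    (prd A P).card ≤ (prd A Q).card :=
  Finset.card_le_card (Finset.image₂_subset_left h)

/-- **Rank-free expansion.** -/
theorem grow_free (η B δ : ℝ) (hη : 0 < η) (hη1 : η ≤ 1) (hB : 0 ≤ B) (hδ : 0 < δ) :
    ∃ τ N0 : ℝ, 0 < τ ∧ 1 ≤ N0 ∧ ∀ (A : Finset ℤ) (P : Finset ℚ), (∀ s ∈ P, s ≠ 0) →
      N0 ≤ A.card → (A.card : ℝ) ^ δ ≤ P.card → ((prd A P).card : ℝ) ≤ (A.card : ℝ) ^ (1 + τ) →
      GrowsB η B A := by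
  classical
  obtain ⟨C2, c2, N2, hC2, hc2, hc21, hN2, hgrow⟩ :=
    grow_sepU (η / 2) (B + 1) (by positivity) (by linarith) (by linarith)
  -- constants
  obtain ⟨c', hc'⟩ : ∃ c' : ℝ, c' = min (δ / 4) (c2 / 2) := ⟨_, rfl⟩
  have hc'0 : 0 < c' := by rw [hc']; exact lt_min (by positivity) (by positivity)
  have hc'δ : c' ≤ δ / 4 := by rw [hc']; exact min_le_left _ _
  have hc'c : c' ≤ c2 / 2 := by rw [hc']; exact min_le_right _ _
  obtain ⟨l, hl⟩ : ∃ l : ℝ, l = min 1 (c' / (16 * C2)) := ⟨_, rfl⟩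
  have hl0 : 0 < l := by rw [hl]; exact lt_min one_pos (by positivity)
  have hl1 : l ≤ 1 := by rw [hl]; exact min_le_left _ _
  have hlC : l * C2 ≤ c' / 16 := by
    have h1 : l ≤ c' / (16 * C2) := by rw [hl]; exact min_le_right _ _
    calc l * C2 ≤ c' / (16 * C2) * C2 := mul_le_mul_of_nonneg_right h1 hC2.le
      _ = c' / 16 := by field_simp
  have hlog : 0 ≤ Real.log (1 / l) := by
    apply Real.log_nonneg
    rw [le_div_iff₀ hl0]
    linarith
  obtain ⟨κ, hκ⟩ : ∃ κ : ℝ, κ = min (c' / 8) (min (c2 / 6) (c' / (48 * (1 + Real.log (1 / l))))) :=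
    ⟨_, rfl⟩
  have hκ0 : 0 < κ := by
    rw [hκ]
    exact lt_min (by positivity) (lt_min (by positivity) (by positivity))
  have hκ1 : κ ≤ c' / 8 := by rw [hκ]; exact min_le_left _ _
  have hκ2 : κ ≤ c2 / 6 := by
    rw [hκ]
    exact (min_le_right _ _).trans (min_le_left _ _)
  have hκ3 : 3 * κ * Real.log (1 / l) ≤ c' / 16 := by
    have h1 : κ ≤ c' / (48 * (1 + Real.log (1 / l))) := by
      rw [hκ]
      exact (min_le_right _ _).trans (min_le_right _ _)
    calc 3 * κ * Real.log (1 / l) ≤ 3 * κ * (1 + Real.log (1 / l)) :=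
          mul_le_mul_of_nonneg_left (by linarith) (by positivity)
      _ ≤ 3 * (c' / (48 * (1 + Real.log (1 / l)))) * (1 + Real.log (1 / l)) := by gcongr
      _ = c' / 16 := by
          field_simp
          ring
  obtain ⟨τ, N1, hτ, hN1, hst⟩ := abs_struct κ hκ0
  have hl4 : 0 < Real.log 4 := Real.log_pos (by norm_num)
  have hl8 : 0 < Real.log 8 := Real.log_pos (by norm_num)
  obtain ⟨L0, hL0⟩ : ∃ L0 : ℝ, L0 = 1 / κ + 4 * Real.log 8 / δ + 2 * Real.log 8 / c' +
      2 * Real.log 4 / η + (B + 1) * Real.log 4 + 4 * Real.log 4 / c2 + 4 * Real.log 4 + 2 := ⟨_, rfl⟩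
  refine ⟨τ, N1 + 4 * N2 + Real.exp L0, hτ, ?_, ?_⟩
  · have := Real.exp_pos L0
    linarith
  intro A P hP0 hAN hPδ hprd
  have hexpL := Real.exp_pos L0
  have hAN1 : N1 ≤ A.card := by linarith
  have hA1 : (1 : ℝ) ≤ A.card := hN1.trans hAN1
  have hA0 : (0 : ℝ) < A.card := by linarith
  obtain ⟨L, hL⟩ : ∃ L : ℝ, L = Real.log A.card := ⟨_, rfl⟩
  have hLL0 : L0 ≤ L := by
    rw [hL, Real.le_log_iff_exp_le hA0]
    linarith
  have q1 : 0 < 1 / κ := by positivity
  have q2 : 0 < 4 * Real.log 8 / δ := by positivity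
  have q3 : 0 < 2 * Real.log 8 / c' := by positivity
  have q4 : 0 < 2 * Real.log 4 / η := by positivity
  have q5 : 0 ≤ (B + 1) * Real.log 4 := by positivity
  have q6 : 0 < 4 * Real.log 4 / c2 := by positivity
  have w1 : 1 ≤ κ * L := by
    have h1 : 1 / κ ≤ L := by linarith
    rw [div_le_iff₀ hκ0] at h1
    linarith
  have w2 : 4 * Real.log 8 ≤ δ * L := by
    have h1 : 4 * Real.log 8 / δ ≤ L := by linarith
    rw [div_le_iff₀ hδ] at h1
    linarith
  have w3 : 2 * Real.log 8 ≤ c' * L := by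
    have h1 : 2 * Real.log 8 / c' ≤ L := by linarith
    rw [div_le_iff₀ hc'0] at h1
    linarith
  have w4 : 2 * Real.log 4 ≤ η * L := by
    have h1 : 2 * Real.log 4 / η ≤ L := by linarith
    rw [div_le_iff₀ hη] at h1
    linarith
  have w5 : (B + 1) * Real.log 4 ≤ L := by linarith
  have w6 : 4 * Real.log 4 ≤ c2 * L := by
    have h1 : 4 * Real.log 4 / c2 ≤ L := by linarith
    rw [div_le_iff₀ hc2] at h1
    linarith
  have w7 : 4 * Real.log 4 ≤ L := by linarith
  have hLp : 0 < L := by linarith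
  have hpow : ∀ x : ℝ, (A.card : ℝ) ^ x = Real.exp (x * L) := by
    intro x
    rw [Real.rpow_def_of_pos hA0, hL, mul_comm]
  have hPne : P.Nonempty := by
    rw [← Finset.card_pos]
    have : (0 : ℝ) < P.card := lt_of_lt_of_le (Real.rpow_pos_of_pos hA0 _) hPδ
    exact_mod_cast this
  obtain ⟨A', H, hA'A, hA'4, hHpos, hHc, hHH, hAH⟩ := hst A P hPne hP0 hAN1 hprd
  have hA'p : (1 : ℝ) ≤ A'.card := by
    have h1 : (0 : ℝ) < A'.card := by linarith
    have h2 : 0 < A'.card := by exact_mod_cast h1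
    exact_mod_cast h2
  have hA'ne : A'.Nonempty := by
    rw [← Finset.card_pos]
    have : (0 : ℝ) < A'.card := by linarith
    exact_mod_cast this
  obtain ⟨L', hL'⟩ : ∃ L' : ℝ, L' = Real.log A'.card := ⟨_, rfl⟩
  have hL'L : L' ≤ L := by
    rw [hL', hL]
    exact Real.log_le_log (by linarith) (by exact_mod_cast Finset.card_le_card hA'A)
  have hLL' : L ≤ Real.log 4 + L' := by
    rw [hL', hL, ← Real.log_mul (by norm_num) (by linarith)]
    exact Real.log_le_log hA0 hA'4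
  have hL'half : L / 2 ≤ L' := by linarith
  have hpow' : ∀ x : ℝ, (A'.card : ℝ) ^ x = Real.exp (x * L') := by
    intro x
    rw [Real.rpow_def_of_pos (by linarith), hL', mul_comm]
  -- reduction to `A'`
  refine growsB_of_sub η B hη hη1 hB A A' hA'A hA'ne hA'4 (by rw [← hL]; exact w4)
    (by rw [← hL]; exact w5) ?_
  by_contra hG
  -- the number `T`
  obtain ⟨T, hT⟩ : ∃ T : ℕ, T = ⌊(A.card : ℝ) ^ c'⌋₊ := ⟨_, rfl⟩
  have hTc : (T : ℝ) ≤ (A.card : ℝ) ^ c' := by
    rw [hT]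
    exact Nat.floor_le (Real.rpow_nonneg hA0.le _)
  have h64 : (64 : ℝ) ≤ (A.card : ℝ) ^ c' := by
    rw [hpow, ← Real.log_le_iff_le_exp (by norm_num), show (64 : ℝ) = 8 ^ 2 by norm_num,
      Real.log_pow]
    push_cast
    linarith
  have hTge : (A.card : ℝ) ^ c' / 2 ≤ T := by
    have h1 := Nat.lt_floor_add_one ((A.card : ℝ) ^ c')
    rw [← hT] at h1
    linarith
  have hT1 : 1 ≤ T := by
    have h1 : (1 : ℝ) ≤ T := by linarith
    exact_mod_cast h1
  have hHne : H.Nonempty := by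
    rw [← Finset.card_pos]
    have h1 : (0 : ℝ) < P.card := by exact_mod_cast hPne.card_pos
    have h2 : (0 : ℝ) < H.card := by linarith
    exact_mod_cast h2
  have hTH : 4 * (A.card : ℝ) ^ κ * (T : ℝ) ^ 2 ≤ H.card := by
    have h1 : (T : ℝ) ^ 2 ≤ ((A.card : ℝ) ^ c') ^ 2 := pow_le_pow_left₀ (Nat.cast_nonneg _) hTc 2
    have h2 : 8 * ((A.card : ℝ) ^ κ * ((A.card : ℝ) ^ c') ^ 2) ≤ (A.card : ℝ) ^ δ := by
      rw [hpow, hpow, hpow, ← Real.exp_nat_mul, ← Real.exp_add, ← Real.exp_log (show (0 : ℝ) < 8 by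
        norm_num), ← Real.exp_add]
      apply Real.exp_le_exp.2
      push_cast
      have h3 : κ * L ≤ c' / 8 * L := mul_le_mul_of_nonneg_right hκ1 hLp.le
      have h4 : c' * L ≤ δ / 4 * L := mul_le_mul_of_nonneg_right hc'δ hLp.le
      linarith
    have h3 : (A.card : ℝ) ^ κ * (T : ℝ) ^ 2 ≤ (A.card : ℝ) ^ κ * ((A.card : ℝ) ^ c') ^ 2 :=
      mul_le_mul_of_nonneg_left h1 (Real.rpow_nonneg hA0.le _)
    linarith
  obtain ⟨r, pr, Q, hQH, hprime, hr2, hQT, hTQ, hsep⟩ :=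
    sub_tree H hHne hHpos ((A.card : ℝ) ^ κ) hHH T hT1 hTH
  have hTQR : (T : ℝ) < 2 * Q.card := by exact_mod_cast hTQ
  have hQTR : (Q.card : ℝ) ≤ T := by exact_mod_cast hQT
  have hQpos : ∀ s ∈ Q, 0 < s := fun s hs => hHpos s (hQH hs)
  have hr1 : 1 ≤ r := by
    by_contra hcon
    have hr0 : r = 0 := by omega
    subst hr0
    have h1 : Q.card ≤ 1 := Finset.card_le_one.2 fun s hs t ht => hsep s hs t ht fun i => i.elim0
    have h2 : (Q.card : ℝ) ≤ 1 := by exact_mod_cast h1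
    linarith
  have hr1R : (1 : ℝ) ≤ r := by exact_mod_cast hr1
  have hrκ : (r : ℝ) ≤ 3 * κ * L := by
    have h1 : (r : ℝ) * Real.log 2 ≤ Real.log 2 + κ * L := by
      have h2 := Real.log_le_log (by positivity) hr2
      rw [Real.log_pow, hpow, Real.log_mul (by norm_num) (Real.exp_pos _).ne',
        Real.log_exp] at h2
      exact h2
    have h3 : (1 / 2 : ℝ) ≤ Real.log 2 := by
      have := Real.log_two_gt_d9
      linarith
    have h4 : ((r : ℝ) - 1) * (1 / 2) ≤ ((r : ℝ) - 1) * Real.log 2 :=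
      mul_le_mul_of_nonneg_left h3 (by linarith)
    linarith
  obtain ⟨M, hM⟩ : ∃ M : ℝ, M = (C2 * L' / r) ^ r := ⟨_, rfl⟩
  have hL'p : 0 < L' := by linarith
  have hM0 : 0 < M := by rw [hM]; positivity
  have hMle : M ≤ (A.card : ℝ) ^ (c' / 8) := by
    rw [hpow, ← Real.log_le_iff_le_exp hM0, hM, Real.log_pow]
    have h1 := log_le_lin l (C2 * L' / r) hl0 (by positivity)
    have h2 := mul_le_mul_of_nonneg_left h1 (show (0 : ℝ) ≤ r by linarith)
    have h3 : (r : ℝ) * (l * (C2 * L' / r) + Real.log (1 / l)) =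
        l * C2 * L' + r * Real.log (1 / l) := by
      field_simp
    rw [h3] at h2
    have h4 : l * C2 * L' ≤ c' / 16 * L := mul_le_mul hlC hL'L hL'p.le (by positivity)
    have h5 : r * Real.log (1 / l) ≤ c' / 16 * L := by
      calc r * Real.log (1 / l) ≤ (3 * κ * L) * Real.log (1 / l) :=
            mul_le_mul_of_nonneg_right hrκ hlog
        _ = (3 * κ * Real.log (1 / l)) * L := by ring
        _ ≤ c' / 16 * L := mul_le_mul_of_nonneg_right hκ3 hLp.le
    linarith
  -- no rich fibres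
  have hnorich : ∀ Z : Finset ℚ, (∀ z ∈ Z, M < ((rich A' (Q.image (fun s => s⁻¹)) z).card : ℝ)) →
      (Z.card : ℝ) ≤ (A'.card : ℝ) ^ (1 - c2) := by
    intro Z hZ
    by_contra hcon
    rw [not_le] at hcon
    refine hG (hgrow A' r pr (Q.image (fun s => s⁻¹)) Z ?_ hr1 ?_ hprime ?_ ?_ ?_ hcon ?_)
    · linarith
    · rw [← hL']
      have h1 : 3 * κ * L ≤ c2 * (L / 2) := by
        have := mul_le_mul_of_nonneg_right hκ2 hLp.le
        linarith
      have h2 : c2 * (L / 2) ≤ c2 * L' := mul_le_mul_of_nonneg_left hL'half hc2.le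
      linarith
    · intro s hs
      obtain ⟨t, ht, rfl⟩ := Finset.mem_image.1 hs
      exact inv_pos.2 (hQpos t ht)
    · intro s hs t ht hst
      obtain ⟨s', hs', rfl⟩ := Finset.mem_image.1 hs
      obtain ⟨t', ht', rfl⟩ := Finset.mem_image.1 ht
      rw [hsep s' hs' t' ht' fun i => ?_]
      have := Fact.mk (hprime i)
      have h1 := hst i
      rw [padicValRat.inv, padicValRat.inv] at h1
      linarith
    · have h1 : ((Q.image (fun s => s⁻¹)).card : ℝ) ≤ Q.card := by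
        exact_mod_cast Finset.card_image_le
      refine h1.trans (hQTR.trans (hTc.trans ?_))
      rw [hpow, hpow']
      apply Real.exp_le_exp.2
      have h2 : c' * L ≤ c2 / 2 * L := mul_le_mul_of_nonneg_right hc'c hLp.le
      have h3 : c2 * (L / 2) ≤ c2 * L' := mul_le_mul_of_nonneg_left hL'half hc2.le
      linarith
    · intro z hz
      rw [← hL', ← hM]
      exact hZ z hz
  have h1 := prd_rank A' Q (fun s hs => (hQpos s hs).ne') M hM0.le
    ((A'.card : ℝ) ^ (1 - c2)) hnorich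
  have hw : (A'.card : ℝ) ^ (1 - c2) + 1 ≤ A'.card / 2 := by
    have h2 : (4 : ℝ) ≤ (A'.card : ℝ) ^ c2 := by
      rw [hpow', ← Real.log_le_iff_le_exp (by norm_num)]
      have h3 : c2 * (L / 2) ≤ c2 * L' := mul_le_mul_of_nonneg_left hL'half hc2.le
      linarith
    have h3 : (4 : ℝ) ≤ A'.card := by
      have h4 : Real.log 4 ≤ Real.log A'.card := by
        rw [← hL']
        linarith
      exact (Real.log_le_log_iff (by norm_num) (by linarith)).1 h4
    have h4 : (A'.card : ℝ) = (A'.card : ℝ) ^ c2 * (A'.card : ℝ) ^ (1 - c2) := by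
      rw [← Real.rpow_add (by linarith)]
      have : c2 + (1 - c2) = 1 := by ring
      rw [this, Real.rpow_one]
    have h5 : 4 * (A'.card : ℝ) ^ (1 - c2) ≤ A'.card := by
      calc 4 * (A'.card : ℝ) ^ (1 - c2) ≤ (A'.card : ℝ) ^ c2 * (A'.card : ℝ) ^ (1 - c2) :=
            mul_le_mul_of_nonneg_right h2 (Real.rpow_nonneg (by linarith) _)
        _ = A'.card := h4.symm
    linarith
  have h2 := fin_bound (A'.card : ℝ) ((A'.card : ℝ) ^ (1 - c2)) M (2 * M) Q.card (prd A' Q).card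
    (Nat.cast_nonneg _) hw h1 le_rfl (Nat.cast_nonneg _)
  have h3 : ((prd A' Q).card : ℝ) ≤ (A.card : ℝ) ^ κ * A'.card := by
    have h4 : ((prd A' Q).card : ℝ) ≤ (prd A' H).card := by exact_mod_cast prd_card_mono A' hQH
    exact h4.trans hAH
  have h4 : (A'.card : ℝ) * Q.card ≤ A'.card * (2 * M * (A.card : ℝ) ^ κ) := by
    calc (A'.card : ℝ) * Q.card ≤ 2 * M * (prd A' Q).card := h2
      _ ≤ 2 * M * ((A.card : ℝ) ^ κ * A'.card) := mul_le_mul_of_nonneg_left h3 (by positivity)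
      _ = _ := by ring
  have h5 := le_of_mul_le_mul_left h4 (by linarith)
  have h6 : (A.card : ℝ) ^ κ ≤ (A.card : ℝ) ^ (c' / 8) :=
    Real.rpow_le_rpow_of_exponent_le hA1 hκ1
  have h7 : M * (A.card : ℝ) ^ κ ≤ (A.card : ℝ) ^ (c' / 4) := by
    calc M * (A.card : ℝ) ^ κ ≤ (A.card : ℝ) ^ (c' / 8) * (A.card : ℝ) ^ (c' / 8) :=
          mul_le_mul hMle h6 (Real.rpow_nonneg hA0.le _) (Real.rpow_nonneg hA0.le _)
      _ = (A.card : ℝ) ^ (c' / 4) := by
          rw [← Real.rpow_add hA0]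
          congr 1
          ring
  have h8 : 8 * (A.card : ℝ) ^ (c' / 4) ≤ (A.card : ℝ) ^ c' := by
    rw [hpow, hpow, ← Real.exp_log (show (0 : ℝ) < 8 by norm_num), ← Real.exp_add]
    apply Real.exp_le_exp.2
    linarith
  linarith

end Pool.Agent.Helper15.GPP
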