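import Pool.Agent.Helper15.GLP.Shatter

set_option autoImplicit false

/-!
# Project GL++ (MP_120218), Osh: the down-set of a finite set of integer vectors
-/

namespace Pool.Agent.Helper15.GPP

open Finset Pool.Agent.Helper15.GLP
open scoped Pointwise

/-- the vectors of `S` with first coordinate `v`, without this coordinate -/
def fib {r : ℕ} (S : Finset (Fin (r + 1) → ℤ)) (v : ℤ) : Finset (Fin r → ℤ) :=
  (S.filter (fun f => f 0 = v)).image (fun f => (Fin.tail f : Fin r → ℤ))

theorem mem_fib {r : ℕ} {S : Finset (Fin (r + 1) → ℤ)} {v : ℤ} {f : Fin r → ℤ} :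
    f ∈ fib S v ↔ (Fin.cons v f : Fin (r + 1) → ℤ) ∈ S := by
  unfold fib
  rw [Finset.mem_image]
  constructor
  · rintro ⟨g, hg, rfl⟩
    rw [Finset.mem_filter] at hg
    obtain ⟨hg, rfl⟩ := hg
    rw [Fin.cons_self_tail]
    exact hg
  · intro h
    refine ⟨Fin.cons v f, Finset.mem_filter.2 ⟨h, Fin.cons_zero _ _⟩, ?_⟩
    exact Fin.tail_cons _ _

theorem fib_mono {r : ℕ} {S T : Finset (Fin (r + 1) → ℤ)} (h : S ⊆ T) (v : ℤ) :
    fib S v ⊆ fib T v := by
  intro f hf
  rw [mem_fib] at hf ⊢
  exact h hf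

theorem card_eq_sum_fib {r : ℕ} (S : Finset (Fin (r + 1) → ℤ)) :
    S.card = ∑ v ∈ S.image (fun f => f 0), (fib S v).card := by
  classical
  rw [Finset.card_eq_sum_card_image (fun f => f 0) S]
  refine Finset.sum_congr rfl fun v _ => ?_
  unfold fib
  refine (Finset.card_image_of_injOn ?_).symm
  intro f hf g hg hfg
  have hf' := (Finset.mem_filter.1 (Finset.mem_coe.1 hf)).2
  have hg' := (Finset.mem_filter.1 (Finset.mem_coe.1 hg)).2
  have hfg' : (Fin.tail f : Fin r → ℤ) = Fin.tail g := hfg
  rw [← Fin.cons_self_tail f, ← Fin.cons_self_tail g, hfg']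
  rw [hf', hg']

open Classical in
/-- the order shattered shapes of `S` -/
noncomputable def osh : (r : ℕ) → Finset (Fin r → ℤ) → Finset (Fin r → ℕ)
  | 0, S => if S.Nonempty then {fun _ => 0} else ∅
  | r + 1, S =>
    (((S.image (fun f => f 0)).biUnion (fun v => osh r (fib S v))).sigma
      (fun b => Finset.range
        ((S.image (fun f => f 0)).filter (fun v => b ∈ osh r (fib S v))).card)).image
      (fun x => (Fin.cons x.2 x.1 : Fin (r + 1) → ℕ))

open Classical in
theorem osh_succ (r : ℕ) (S : Finset (Fin (r + 1) → ℤ)) : osh (r + 1) S =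
    (((S.image (fun f => f 0)).biUnion (fun v => osh r (fib S v))).sigma
      (fun b => Finset.range
        ((S.image (fun f => f 0)).filter (fun v => b ∈ osh r (fib S v))).card)).image
      (fun x => (Fin.cons x.2 x.1 : Fin (r + 1) → ℕ)) := rfl

theorem mem_osh_zero {S : Finset (Fin 0 → ℤ)} {a : Fin 0 → ℕ} : a ∈ osh 0 S ↔ S.Nonempty := by
  unfold osh
  by_cases h : S.Nonempty
  · rw [if_pos h, Finset.mem_singleton]
    exact ⟨fun _ => h, fun _ => Subsingleton.elim _ _⟩
  · rw [if_neg h]
    simp [h]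

open Classical in
theorem mem_osh_succ {r : ℕ} {S : Finset (Fin (r + 1) → ℤ)} {n : ℕ} {b : Fin r → ℕ} :
    (Fin.cons n b : Fin (r + 1) → ℕ) ∈ osh (r + 1) S ↔
      n < ((S.image (fun f => f 0)).filter (fun v => b ∈ osh r (fib S v))).card := by
  rw [osh_succ, Finset.mem_image]
  constructor
  · rintro ⟨⟨b', n'⟩, hx, h⟩
    rw [Finset.mem_sigma, Finset.mem_range] at hx
    have h1 := congrFun h 0
    have h2 : (Fin.tail (Fin.cons n' b' : Fin (r + 1) → ℕ) : Fin r → ℕ) =
        Fin.tail (Fin.cons n b : Fin (r + 1) → ℕ) := by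
      have : (Fin.cons n' b' : Fin (r + 1) → ℕ) = Fin.cons n b := h
      rw [this]
    simp only [Fin.cons_zero] at h1
    rw [Fin.tail_cons, Fin.tail_cons] at h2
    subst h1
    subst h2
    exact hx.2
  · intro h
    refine ⟨⟨b, n⟩, ?_, rfl⟩
    rw [Finset.mem_sigma, Finset.mem_range]
    refine ⟨?_, h⟩
    obtain ⟨v, hv⟩ := Finset.card_pos.1 (lt_of_le_of_lt (Nat.zero_le n) h)
    rw [Finset.mem_filter] at hv
    exact Finset.mem_biUnion.2 ⟨v, hv.1, hv.2⟩

theorem card_osh : ∀ (r : ℕ) (S : Finset (Fin r → ℤ)), (osh r S).card = S.card := by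
  classical
  intro r
  induction r with
  | zero =>
    intro S
    unfold osh
    by_cases h : S.Nonempty
    · rw [if_pos h, Finset.card_singleton]
      obtain ⟨s, hs⟩ := h
      refine (Finset.card_eq_one.2 ⟨s, ?_⟩).symm
      ext t
      rw [Finset.mem_singleton]
      exact ⟨fun _ => Subsingleton.elim _ _, fun ht => by rw [ht]; exact hs⟩
    · rw [if_neg h]
      rw [Finset.not_nonempty_iff_eq_empty] at h
      rw [h, Finset.card_empty, Finset.card_empty]
  | succ r ih =>
    intro S
    rw [osh_succ]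
    have hinj : Function.Injective
        (fun x : (Σ _ : (Fin r → ℕ), ℕ) => (Fin.cons x.2 x.1 : Fin (r + 1) → ℕ)) := by
      intro x y hxy
      have h1 := congrFun hxy 0
      have h2 : (Fin.tail (Fin.cons x.2 x.1 : Fin (r + 1) → ℕ) : Fin r → ℕ) =
        Fin.tail (Fin.cons y.2 y.1 : Fin (r + 1) → ℕ) := by
        have : (Fin.cons x.2 x.1 : Fin (r + 1) → ℕ) = Fin.cons y.2 y.1 := hxy
        rw [this]
      simp only [Fin.cons_zero] at h1
      rw [Fin.tail_cons, Fin.tail_cons] at h2
      obtain ⟨x1, x2⟩ := x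
      obtain ⟨y1, y2⟩ := y
      simp only at h1 h2
      rw [h1, h2]
    rw [Finset.card_image_of_injective _ hinj, Finset.card_sigma, card_eq_sum_fib S]
    rw [Finset.sum_congr rfl (fun v _ => (ih (fib S v)).symm)]
    have e1 : ∀ b ∈ ((S.image (fun f => f 0)).biUnion (fun v => osh r (fib S v))),
        (Finset.range ((S.image (fun f => f 0)).filter (fun v => b ∈ osh r (fib S v))).card).card =
          ∑ v ∈ S.image (fun f => f 0), if b ∈ osh r (fib S v) then 1 else 0 := by
      intro b _
      rw [Finset.card_range, Finset.card_filter]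
    rw [Finset.sum_congr rfl e1, Finset.sum_comm]
    refine Finset.sum_congr rfl fun v hv => ?_
    rw [← Finset.card_filter]
    congr 1
    ext b
    simp only [Finset.mem_filter, Finset.mem_biUnion]
    constructor
    · exact fun h => h.2
    · exact fun h => ⟨⟨v, hv, h⟩, h⟩

theorem osh_mono : ∀ (r : ℕ) (S T : Finset (Fin r → ℤ)), S ⊆ T → osh r S ⊆ osh r T := by
  classical
  intro r
  induction r with
  | zero =>
    intro S T h a ha
    rw [mem_osh_zero] at ha ⊢
    exact ha.mono h
  | succ r ih =>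
    intro S T h a ha
    rw [← Fin.cons_self_tail a, mem_osh_succ] at ha ⊢
    refine ha.trans_le (Finset.card_le_card ?_)
    intro v hv
    rw [Finset.mem_filter] at hv ⊢
    exact ⟨Finset.image_subset_image h hv.1, ih _ _ (fib_mono h v) hv.2⟩

theorem osh_down : ∀ (r : ℕ) (S : Finset (Fin r → ℤ)), ∀ a ∈ osh r S, ∀ b : Fin r → ℕ,
    (∀ j, b j ≤ a j) → b ∈ osh r S := by
  classical
  intro r
  induction r with
  | zero =>
    intro S a ha b _
    rw [mem_osh_zero] at ha ⊢
    exact ha
  | succ r ih =>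
    intro S a ha b hb
    rw [← Fin.cons_self_tail a, mem_osh_succ] at ha
    rw [← Fin.cons_self_tail b, mem_osh_succ]
    refine lt_of_le_of_lt (hb 0) (ha.trans_le (Finset.card_le_card ?_))
    intro v hv
    rw [Finset.mem_filter] at hv ⊢
    exact ⟨hv.1, ih _ _ hv.2 _ fun j => hb j.succ⟩

theorem osh_add : ∀ (r : ℕ) (S T : Finset (Fin r → ℤ)), ∀ a ∈ osh r S, ∀ b ∈ osh r T,
    a + b ∈ osh r (Finset.image₂ (fun x y => x + y) S T) := by
  classical
  intro r
  induction r with
  | zero =>
    intro S T a ha b hb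
    rw [mem_osh_zero] at ha hb ⊢
    exact ha.image₂ hb
  | succ r ih =>
    intro S T a ha b hb
    have hab : a + b = Fin.cons (a 0 + b 0) (Fin.tail a + Fin.tail b) := by
      rw [← Fin.cons_self_tail (a + b)]
      rfl
    rw [hab, mem_osh_succ]
    rw [← Fin.cons_self_tail a, mem_osh_succ] at ha
    rw [← Fin.cons_self_tail b, mem_osh_succ] at hb
    obtain ⟨V, hV⟩ : ∃ V : Finset ℤ, V = (S.image (fun f => f 0)).filter
      (fun v => Fin.tail a ∈ osh r (fib S v)) := ⟨_, rfl⟩
    obtain ⟨W, hW⟩ : ∃ W : Finset ℤ, W = (T.image (fun f => f 0)).filter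
      (fun v => Fin.tail b ∈ osh r (fib T v)) := ⟨_, rfl⟩
    rw [← hV] at ha
    rw [← hW] at hb
    have hVne : V.Nonempty := Finset.card_pos.1 (lt_of_le_of_lt (Nat.zero_le _) ha)
    have hWne : W.Nonempty := Finset.card_pos.1 (lt_of_le_of_lt (Nat.zero_le _) hb)
    have hcd := cauchy_davenport_of_isAddTorsionFree hVne hWne
    have hsub : V + W ⊆ ((Finset.image₂ (fun x y => x + y) S T).image (fun f => f 0)).filter
        (fun v => Fin.tail a + Fin.tail b ∈
          osh r (fib (Finset.image₂ (fun x y => x + y) S T) v)) := by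
      intro u hu
      obtain ⟨v, hv, w, hw, rfl⟩ := Finset.mem_add.1 hu
      rw [hV, Finset.mem_filter] at hv
      rw [hW, Finset.mem_filter] at hw
      rw [Finset.mem_filter]
      constructor
      · obtain ⟨f, hf, rfl⟩ := Finset.mem_image.1 hv.1
        obtain ⟨g, hg, rfl⟩ := Finset.mem_image.1 hw.1
        exact Finset.mem_image.2 ⟨f + g, Finset.mem_image₂_of_mem hf hg, rfl⟩
      · refine osh_mono r _ _ ?_ (ih _ _ _ hv.2 _ hw.2)
        intro z hz
        obtain ⟨x, hx, y, hy, rfl⟩ := Finset.mem_image₂.1 hz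
        rw [mem_fib] at hx hy ⊢
        have hxy : (Fin.cons (v + w) (x + y) : Fin (r + 1) → ℤ) = Fin.cons v x + Fin.cons w y := by
          funext j
          induction j using Fin.cases with
          | zero => simp
          | succ j => simp
        rw [hxy]
        exact Finset.mem_image₂_of_mem hx hy
    have h1 := Finset.card_le_card hsub
    show a 0 + b 0 < _
    omega

/-- the shapes in `osh` are shapes of trees -/
theorem osh_tr : ∀ (r : ℕ) (S : Finset (Fin r → ℤ)), ∀ a ∈ osh r S, Tr S a := by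
  classical
  intro r
  induction r with
  | zero =>
    intro S a ha
    rw [mem_osh_zero] at ha
    obtain ⟨s, hs⟩ := ha
    exact ⟨fun _ => s, fun t _ => hs, fun t t' _ _ j => j.elim0⟩
  | succ r ih =>
    intro S a ha
    rw [← Fin.cons_self_tail a, mem_osh_succ] at ha
    obtain ⟨n, hn⟩ : ∃ n : ℕ, n = a 0 := ⟨_, rfl⟩
    obtain ⟨b, hb⟩ : ∃ b : Fin r → ℕ, b = Fin.tail a := ⟨_, rfl⟩
    have hab : a = Fin.cons n b := by rw [hn, hb, Fin.cons_self_tail]
    rw [← hn, ← hb] at ha
    rw [hab]
    obtain ⟨c, hc⟩ : ∃ c : Finset ℤ, c = (S.image (fun f => f 0)).filter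
      (fun v => b ∈ osh r (fib S v)) := ⟨_, rfl⟩
    rw [← hc] at ha
    obtain ⟨e, he1, he2⟩ := exists_enum c n ha
    have he3 : ∀ i, i ≤ n → Tr (fib S (e i)) b := by
      intro i hi
      have := he1 i hi
      rw [hc, Finset.mem_filter] at this
      exact ih _ _ this.2
    choose! s hs1 hs2 using he3
    refine ⟨fun t => Fin.cons (e (t 0)) (s (t 0) (Fin.tail t)), ?_, ?_⟩
    · intro t ht
      have ht0 : t 0 ≤ n := by simpa using ht 0
      have ht1 : ∀ j, (Fin.tail t) j ≤ b j := by
        intro j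
        have := ht j.succ
        simpa [Fin.tail] using this
      exact mem_fib.1 (hs1 (t 0) ht0 (Fin.tail t) ht1)
    · intro t t' ht ht' j hj
      have ht0 : t 0 ≤ n := by simpa using ht 0
      have ht0' : t' 0 ≤ n := by simpa using ht' 0
      have ht1 : ∀ j, (Fin.tail t) j ≤ b j := by
        intro j
        have := ht j.succ
        simpa [Fin.tail] using this
      have ht1' : ∀ j, (Fin.tail t') j ≤ b j := by
        intro j
        have := ht' j.succ
        simpa [Fin.tail] using this
      induction j using Fin.cases with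
      | zero =>
        simp only [Fin.cons_zero]
        exact ⟨fun h => he2 _ _ ht0 ht0' h, fun h => by rw [h]⟩
      | succ j =>
        have h0 : t 0 = t' 0 := hj 0 (Fin.succ_pos j)
        simp only [Fin.cons_succ]
        rw [← h0]
        exact hs2 (t 0) ht0 (Fin.tail t) (Fin.tail t') ht1 ht1' j (fun i hi => by
          have := hj i.succ (Fin.succ_lt_succ_iff.2 hi)
          simpa [Fin.tail] using this)

end Pool.Agent.Helper15.GPP
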