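import Pool.Agent.Helper94.LE.BSG

set_option autoImplicit false

/-!
# Project GL++ (MP_120218), Pop: many popular differences contain a structured set of popular
differences
-/

namespace Pool.Agent.Helper15.GPP

open Finset
open scoped Pointwise

section

variable {G : Type} [AddCommGroup G] [DecidableEq G]

/-- the elements `a` of `A` with `a + t ∈ A` -/
def cor (A : Finset G) (t : G) : Finset G := A.filter (fun a => a + t ∈ A)

theorem mem_cor {A : Finset G} {t a : G} : a ∈ cor A t ↔ a ∈ A ∧ a + t ∈ A := Finset.mem_filter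

theorem cor_le (A : Finset G) (t : G) : (cor A t).card ≤ A.card :=
  Finset.card_le_card (Finset.filter_subset _ _)

/-- double counting -/
theorem sum_cor_le (A U : Finset G) : ∑ t ∈ U, (cor A t).card ≤ A.card ^ 2 := by
  have h1 : ∑ t ∈ U, (cor A t).card = (U.sigma (fun t => cor A t)).card :=
    (Finset.card_sigma _ _).symm
  rw [h1, sq, ← Finset.card_product]
  refine Finset.card_le_card_of_injOn (fun x : (_ : G) × G => (x.2, x.2 + x.1)) ?_ ?_
  · intro x hx
    have h2 := Finset.mem_sigma.1 (Finset.mem_coe.1 hx)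
    have h3 := mem_cor.1 h2.2
    exact Finset.mem_coe.2 (Finset.mem_product.2 ⟨h3.1, h3.2⟩)
  · rintro ⟨t, a⟩ _ ⟨t', a'⟩ _ h
    have h2 : a = a' ∧ a + t = a' + t' := Prod.mk.inj h
    obtain ⟨rfl, h3⟩ := h2
    have h4 := add_left_cancel h3
    subst h4
    rfl

/-- the popular differences -/
noncomputable def pop (A : Finset G) (u : ℝ) : Finset G := by
  classical
  exact (A - A).filter (fun t => u ≤ ((cor A t).card : ℝ))

theorem mem_pop {A : Finset G} {u : ℝ} (hu : 0 < u) {t : G} :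
    t ∈ pop A u ↔ u ≤ ((cor A t).card : ℝ) := by
  unfold pop
  rw [Finset.mem_filter]
  refine ⟨fun h => h.2, fun h => ⟨?_, h⟩⟩
  have h1 : (0 : ℝ) < (cor A t).card := lt_of_lt_of_le hu h
  have h2 : 0 < (cor A t).card := by exact_mod_cast h1
  obtain ⟨a, ha⟩ := Finset.card_pos.1 h2
  obtain ⟨h3, h4⟩ := mem_cor.1 ha
  have h5 := Finset.sub_mem_sub h4 h3
  rwa [add_sub_cancel_left] at h5

theorem card_pop_le (A : Finset G) (u : ℝ) (hu : 0 < u) :
    ((pop A u).card : ℝ) * u ≤ (A.card : ℝ) ^ 2 := by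
  have h1 : ((pop A u).card : ℝ) * u ≤ ∑ t ∈ pop A u, ((cor A t).card : ℝ) := by
    rw [← nsmul_eq_mul, ← Finset.sum_const]
    exact Finset.sum_le_sum fun t ht => (mem_pop hu).1 ht
  refine h1.trans ?_
  exact_mod_cast sum_cor_le A (pop A u)

/-- the pairs of popular differences whose difference is popular -/
theorem pairs (A S : Finset G) (u v : ℝ) (hu : 0 ≤ u) (hS : ∀ s ∈ S, u ≤ ((cor A s).card : ℝ)) :
    (S.card * u) ^ 2 ≤ A.card * (A.card *
      (((S ×ˢ S).filter (fun q : G × G => v ≤ ((cor A (q.2 - q.1)).card : ℝ))).card : ℝ) +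
        (S.card : ℝ) ^ 2 * max v 0) := by
  classical
  obtain ⟨F, hF⟩ : ∃ F : G → ℝ, F = fun a => ((S.filter (fun x => a + x ∈ A)).card : ℝ) := ⟨_, rfl⟩
  have hF1 : ∀ a, F a = ∑ x ∈ S, if a + x ∈ A then (1 : ℝ) else 0 := by
    intro a
    rw [hF, Finset.sum_ite, Finset.sum_const, Finset.sum_const_zero, add_zero, nsmul_eq_mul,
      mul_one]
  have hcor : ∀ x, ((cor A x).card : ℝ) = ∑ a ∈ A, if a + x ∈ A then (1 : ℝ) else 0 := by
    intro x
    rw [Finset.sum_ite, Finset.sum_const, Finset.sum_const_zero, add_zero, nsmul_eq_mul,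
      mul_one]
    rfl
  have h1 : S.card * u ≤ ∑ a ∈ A, F a := by
    calc S.card * u = ∑ x ∈ S, u := by rw [Finset.sum_const, nsmul_eq_mul]
      _ ≤ ∑ x ∈ S, ((cor A x).card : ℝ) := Finset.sum_le_sum hS
      _ = ∑ x ∈ S, ∑ a ∈ A, (if a + x ∈ A then (1 : ℝ) else 0) :=
          Finset.sum_congr rfl fun x _ => hcor x
      _ = ∑ a ∈ A, ∑ x ∈ S, (if a + x ∈ A then (1 : ℝ) else 0) := Finset.sum_comm
      _ = ∑ a ∈ A, F a := Finset.sum_congr rfl fun a _ => (hF1 a).symm
  have h2 : (∑ a ∈ A, F a) ^ 2 ≤ A.card * ∑ a ∈ A, F a ^ 2 := sq_sum_le_card_mul_sum_sq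
  have h3 : (S.card * u) ^ 2 ≤ (∑ a ∈ A, F a) ^ 2 :=
    pow_le_pow_left₀ (mul_nonneg (Nat.cast_nonneg _) hu) h1 2
  refine h3.trans (h2.trans (mul_le_mul_of_nonneg_left ?_ (Nat.cast_nonneg _)))
  -- the second moment
  have h4 : ∑ a ∈ A, F a ^ 2 = ∑ q ∈ S ×ˢ S,
      ((A.filter (fun a => a + q.1 ∈ A ∧ a + q.2 ∈ A)).card : ℝ) := by
    calc ∑ a ∈ A, F a ^ 2 = ∑ a ∈ A, ∑ q ∈ S ×ˢ S,
          ((if a + q.1 ∈ A then (1 : ℝ) else 0) * (if a + q.2 ∈ A then (1 : ℝ) else 0)) := by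
          refine Finset.sum_congr rfl fun a _ => ?_
          rw [sq, hF1, Finset.sum_mul_sum, ← Finset.sum_product']
      _ = ∑ q ∈ S ×ˢ S, ∑ a ∈ A,
          ((if a + q.1 ∈ A then (1 : ℝ) else 0) * (if a + q.2 ∈ A then (1 : ℝ) else 0)) :=
          Finset.sum_comm
      _ = _ := by
          refine Finset.sum_congr rfl fun q _ => ?_
          rw [Finset.card_filter]
          push_cast
          refine Finset.sum_congr rfl fun a _ => ?_
          by_cases h5 : a + q.1 ∈ A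
          · by_cases h6 : a + q.2 ∈ A
            · rw [if_pos h5, if_pos h6, if_pos ⟨h5, h6⟩, mul_one]
            · rw [if_pos h5, if_neg h6, if_neg (fun h => h6 h.2), mul_zero]
          · rw [if_neg h5, zero_mul,
              if_neg (show ¬(a + q.1 ∈ A ∧ a + q.2 ∈ A) from fun h => h5 h.1)]
  have h5 : ∀ q : G × G, (A.filter (fun a => a + q.1 ∈ A ∧ a + q.2 ∈ A)).card ≤
      (cor A (q.2 - q.1)).card := by
    intro q
    refine Finset.card_le_card_of_injOn (fun a => a + q.1) ?_ ?_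
    · intro a ha
      have h6 := Finset.mem_filter.1 (Finset.mem_coe.1 ha)
      refine Finset.mem_coe.2 (mem_cor.2 ⟨h6.2.1, ?_⟩)
      have h7 : a + q.1 + (q.2 - q.1) = a + q.2 := by abel
      rw [h7]
      exact h6.2.2
    · intro a _ b _ h
      exact add_right_cancel h
  rw [h4]
  calc ∑ q ∈ S ×ˢ S, ((A.filter (fun a => a + q.1 ∈ A ∧ a + q.2 ∈ A)).card : ℝ)
      ≤ ∑ q ∈ S ×ˢ S, ((if v ≤ ((cor A (q.2 - q.1)).card : ℝ) then (A.card : ℝ) else 0) +
          max v 0) := by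
        refine Finset.sum_le_sum fun q _ => ?_
        by_cases h6 : v ≤ ((cor A (q.2 - q.1)).card : ℝ)
        · rw [if_pos h6]
          have h7 : ((A.filter (fun a => a + q.1 ∈ A ∧ a + q.2 ∈ A)).card : ℝ) ≤ A.card := by
            exact_mod_cast Finset.card_le_card (Finset.filter_subset _ _)
          have h8 : 0 ≤ max v 0 := le_max_right _ _
          linarith
        · rw [if_neg h6, zero_add]
          have h7 : ((A.filter (fun a => a + q.1 ∈ A ∧ a + q.2 ∈ A)).card : ℝ) ≤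
            (cor A (q.2 - q.1)).card := by exact_mod_cast h5 q
          exact h7.trans ((not_le.1 h6).le.trans (le_max_left _ _))
    _ = A.card * (((S ×ˢ S).filter (fun q : G × G => v ≤ ((cor A (q.2 - q.1)).card : ℝ))).card : ℝ) +
        (S.card : ℝ) ^ 2 * max v 0 := by
        rw [Finset.sum_add_distrib, Finset.sum_ite, Finset.sum_const, Finset.sum_const_zero,
          add_zero, Finset.sum_const, Finset.card_product, nsmul_eq_mul, nsmul_eq_mul]
        push_cast
        ring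

/-- many pairs with difference in a set `T` give large energy -/
theorem energy (S T : Finset G) :
    (((S ×ˢ S).filter (fun q : G × G => q.2 - q.1 ∈ T)).card : ℝ) ^ 2 ≤
      T.card * ∑ t ∈ S - S, ((cor S t).card : ℝ) ^ 2 := by
  classical
  have h1 : ((S ×ˢ S).filter (fun q : G × G => q.2 - q.1 ∈ T)).card ≤ ∑ t ∈ T, (cor S t).card := by
    have h2 : ∑ t ∈ T, (cor S t).card = (T.sigma (fun t => cor S t)).card :=
      (Finset.card_sigma _ _).symm
    rw [h2]
    refine Finset.card_le_card_of_injOn (fun q : G × G => (⟨q.2 - q.1, q.1⟩ : (_ : G) × G)) ?_ ?_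
    · intro q hq
      have h3 := Finset.mem_filter.1 (Finset.mem_coe.1 hq)
      have h4 := Finset.mem_product.1 h3.1
      refine Finset.mem_coe.2 (Finset.mem_sigma.2 ⟨h3.2, mem_cor.2 ⟨h4.1, ?_⟩⟩)
      show q.1 + (q.2 - q.1) ∈ S
      rw [add_sub_cancel]
      exact h4.2
    · rintro ⟨x, y⟩ _ ⟨x', y'⟩ _ h
      have h3 : y - x = y' - x' ∧ x = x' := by
        have := Sigma.mk.inj h
        exact ⟨this.1, eq_of_heq this.2⟩
      obtain ⟨h4, rfl⟩ := h3
      have h5 : y = y' := sub_left_inj.1 h4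
      rw [h5]
  have h2 : (∑ t ∈ T, ((cor S t).card : ℝ)) ^ 2 ≤ T.card * ∑ t ∈ T, ((cor S t).card : ℝ) ^ 2 :=
    sq_sum_le_card_mul_sum_sq
  have h3 : ∑ t ∈ T, ((cor S t).card : ℝ) ^ 2 ≤ ∑ t ∈ S - S, ((cor S t).card : ℝ) ^ 2 := by
    have h4 : ∑ t ∈ T, ((cor S t).card : ℝ) ^ 2 =
        ∑ t ∈ T.filter (fun t => t ∈ S - S), ((cor S t).card : ℝ) ^ 2 := by
      rw [Finset.sum_filter]
      refine Finset.sum_congr rfl fun t _ => ?_
      by_cases h5 : t ∈ S - S
      · rw [if_pos h5]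
      · rw [if_neg h5]
        have h6 : cor S t = ∅ := by
          rw [Finset.eq_empty_iff_forall_notMem]
          intro a ha
          obtain ⟨h7, h8⟩ := mem_cor.1 ha
          apply h5
          have h9 := Finset.sub_mem_sub h8 h7
          rwa [add_sub_cancel_left] at h9
        rw [h6, Finset.card_empty, Nat.cast_zero]
        ring
    rw [h4]
    refine Finset.sum_le_sum_of_subset_of_nonneg ?_ fun t _ _ => sq_nonneg _
    intro t ht
    exact (Finset.mem_filter.1 ht).2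
  have h4 : (((S ×ˢ S).filter (fun q : G × G => q.2 - q.1 ∈ T)).card : ℝ) ≤
      ∑ t ∈ T, ((cor S t).card : ℝ) := by exact_mod_cast h1
  calc (((S ×ˢ S).filter (fun q : G × G => q.2 - q.1 ∈ T)).card : ℝ) ^ 2 ≤
        (∑ t ∈ T, ((cor S t).card : ℝ)) ^ 2 := pow_le_pow_left₀ (Nat.cast_nonneg _) h4 2
    _ ≤ _ := h2.trans (mul_le_mul_of_nonneg_left h3 (Nat.cast_nonneg _))

/-- Balog-Szemeredi-Gowers for a set -/
theorem bsg_set (S : Finset G) (hS : S.Nonempty) (K : ℝ) (hK : 1 ≤ K)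
    (hE : (S.card : ℝ) ^ 3 ≤ K * ∑ t ∈ S - S, ((cor S t).card : ℝ) ^ 2) :
    ∃ X : Finset G, X.Nonempty ∧ X ⊆ S ∧ (S.card : ℝ) ≤ 128 * K ^ 3 * X.card ∧
      ((X - X).card : ℝ) ≤ 2 ^ 31 * K ^ 10 * X.card ∧
      ((X + X).card : ℝ) ≤ 2 ^ 62 * K ^ 20 * X.card := by
  classical
  have hn : (0 : ℝ) < S.card := by exact_mod_cast hS.card_pos
  have hK0 : 0 < K := by linarith
  obtain ⟨mu, hmu⟩ : ∃ mu : G → ℝ, mu = fun x => if x ∈ S then 1 / (S.card : ℝ) else 0 := ⟨_, rfl⟩
  have hin : ∀ x ∈ S, mu x = 1 / (S.card : ℝ) := by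
    intro x hx
    rw [hmu]
    exact if_pos hx
  have hout : ∀ x, x ∉ S → mu x = 0 := by
    intro x hx
    rw [hmu]
    exact if_neg hx
  have h0 : ∀ x, 0 ≤ mu x := by
    intro x
    by_cases hx : x ∈ S
    · rw [hin x hx]
      positivity
    · rw [hout x hx]
  have h1 : ∑ x ∈ S, mu x = 1 := by
    rw [Finset.sum_congr rfl hin, Finset.sum_const, nsmul_eq_mul]
    field_simp
  have h2 : ∑ x ∈ S, mu x ^ 2 = 1 / (S.card : ℝ) := by
    rw [Finset.sum_congr rfl fun x hx => by rw [hin x hx], Finset.sum_const, nsmul_eq_mul]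
    field_simp
  have h3 : ∀ t, ∑ x ∈ S, mu x * mu (x + t) = ((cor S t).card : ℝ) / (S.card : ℝ) ^ 2 := by
    intro t
    have h4 : ∑ x ∈ S, mu x * mu (x + t) =
        ∑ x ∈ S, if x + t ∈ S then 1 / (S.card : ℝ) ^ 2 else 0 := by
      refine Finset.sum_congr rfl fun x hx => ?_
      by_cases h5 : x + t ∈ S
      · rw [if_pos h5, hin x hx, hin _ h5]
        field_simp
      · rw [if_neg h5, hout _ h5, mul_zero]
    rw [h4, Finset.sum_ite, Finset.sum_const, Finset.sum_const_zero, add_zero, nsmul_eq_mul]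
    unfold cor
    field_simp
  obtain ⟨X, hX1, hX2, hX3, _, hX5, hX6⟩ := Pool.Agent.Helper94.LE.bsg_law S mu h0 hout h1 K hK (by
    rw [h2]
    have h4 : ∑ t ∈ S - S, (∑ x ∈ S, mu x * mu (x + t)) ^ 2 =
        (∑ t ∈ S - S, ((cor S t).card : ℝ) ^ 2) / (S.card : ℝ) ^ 4 := by
      rw [Finset.sum_div]
      refine Finset.sum_congr rfl fun t _ => ?_
      rw [h3, div_pow, ← pow_mul]
    rw [h4, div_div, div_le_div_iff₀ (by positivity) (by positivity)]
    calc 1 * (S.card : ℝ) ^ 4 = S.card * (S.card : ℝ) ^ 3 := by ring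
      _ ≤ S.card * (K * ∑ t ∈ S - S, ((cor S t).card : ℝ) ^ 2) :=
          mul_le_mul_of_nonneg_left hE hn.le
      _ = _ := by ring)
  refine ⟨X, hX1, hX2, ?_, hX5, hX6⟩
  have h4 : ∑ x ∈ X, mu x = X.card / S.card := by
    rw [Finset.sum_congr rfl fun x hx => hin x (hX2 hx), Finset.sum_const, nsmul_eq_mul]
    field_simp
  rw [h4, div_le_div_iff₀ (by positivity) hn] at hX3
  linarith

end

end Pool.Agent.Helper15.GPP
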