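import Pool.Agent.Helper15.GPP.Pop

set_option autoImplicit false

/-!
# Project GL++ (MP_120218), PopS: many popular differences contain a structured set of popular
differences
-/

namespace Pool.Agent.Helper15.GPP

open Finset
open scoped Pointwise

/-- a pigeonhole principle -/
theorem pigeon (m : ℕ) (hm : 1 ≤ m) (p : ℕ → ℝ) (q : ℝ) (hq : 0 ≤ q) (hp0 : 1 ≤ p 0)
    (hpm : p m ≤ q ^ m) : ∃ i < m, p (i + 1) ≤ q * p i := by
  by_contra hcon
  push Not at hcon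
  have h1 : ∀ i ≤ m, q ^ i ≤ p i := by
    intro i
    induction i with
    | zero =>
      intro _
      rw [pow_zero]
      exact hp0
    | succ i ih =>
      intro hi
      have h2 := ih (by omega)
      have h3 := hcon i (by omega)
      rw [pow_succ, mul_comm]
      exact (mul_le_mul_of_nonneg_left h2 hq).trans h3.le
  have h2 := hcon (m - 1) (by omega)
  have h3 := h1 (m - 1) (by omega)
  have h4 : m - 1 + 1 = m := by omega
  rw [h4] at h2
  have h5 : q ^ m = q * q ^ (m - 1) := by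
    rw [← pow_succ', h4]
  rw [h5] at hpm
  have h6 := mul_le_mul_of_nonneg_left h3 hq
  linarith

theorem pop_struct (κ δ : ℝ) (hκ : 0 < κ) (hδ : 0 ≤ δ) : ∃ θ N0 : ℝ, 0 < θ ∧ 1 ≤ N0 ∧
    ∀ (G : Type) [AddCommGroup G] [DecidableEq G] (A S : Finset G), N0 ≤ A.card →
      (A.card : ℝ) ^ δ ≤ S.card → (∀ s ∈ S, (A.card : ℝ) ^ (1 - θ) ≤ ((cor A s).card : ℝ)) →
      ∃ H : Finset G, H.Nonempty ∧ (A.card : ℝ) ^ (δ - κ) ≤ H.card ∧
        ((H - H).card : ℝ) ≤ (A.card : ℝ) ^ κ * H.card ∧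
        ((H + H).card : ℝ) ≤ (A.card : ℝ) ^ κ * H.card ∧
        ∀ h ∈ H, (A.card : ℝ) ^ (1 - κ) ≤ ((cor A h).card : ℝ) := by
  classical
  obtain ⟨m, hm⟩ := exists_nat_gt (200 / κ)
  have hm0 : (0 : ℝ) < m := lt_trans (by positivity) hm
  have hm1 : 1 ≤ m := by exact_mod_cast hm0
  have hm1R : (1 : ℝ) ≤ m := by exact_mod_cast hm1
  have hκm : 200 * (1 / (m : ℝ)) ≤ κ := by
    rw [div_lt_iff₀ hκ] at hm
    rw [mul_one_div, div_le_iff₀ hm0]
    linarith
  obtain ⟨e, he⟩ : ∃ e : ℝ, e = 1 / (m : ℝ) := ⟨_, rfl⟩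
  rw [← he] at hκm
  have he0 : 0 < e := by rw [he]; positivity
  have hem : (m : ℝ) * e = 1 := by rw [he]; field_simp
  obtain ⟨θ, hθ⟩ : ∃ θ : ℝ, θ = e / 3 ^ m := ⟨_, rfl⟩
  have hθ0 : 0 < θ := by rw [hθ]; positivity
  refine ⟨θ, (2 : ℝ) ^ (62 / θ), hθ0, ?_, ?_⟩
  · exact Real.one_le_rpow (by norm_num) (by positivity)
  intro G _ _ A S hAN hSδ hS
  obtain ⟨N, hN⟩ : ∃ N : ℝ, N = A.card := ⟨_, rfl⟩
  rw [← hN] at hAN hSδ hS ⊢
  have h20 : (0 : ℝ) < 2 ^ (62 / θ) := Real.rpow_pos_of_pos (by norm_num) _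
  have hN1 : 1 ≤ N := le_trans (Real.one_le_rpow (by norm_num) (by positivity)) hAN
  have hNp : 0 < N := by linarith
  have hbig : (2 : ℝ) ^ 62 ≤ N ^ θ := by
    have h1 := Real.rpow_le_rpow h20.le hAN hθ0.le
    rw [← Real.rpow_mul (by norm_num)] at h1
    have h2 : 62 / θ * θ = 62 := by field_simp
    rw [h2] at h1
    have h3 : (2 : ℝ) ^ (62 : ℝ) = 2 ^ 62 := by
      rw [← Real.rpow_natCast]
      norm_num
    rwa [h3] at h1
  have hθi : ∀ i : ℕ, θ ≤ 3 ^ i * θ := by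
    intro i
    exact le_mul_of_one_le_left hθ0.le (one_le_pow₀ (by norm_num))
  have hθe : ∀ i ≤ m, 3 ^ i * θ ≤ e := by
    intro i hi
    rw [hθ, mul_div_assoc', div_le_iff₀ (by positivity)]
    have h1 : (3 : ℝ) ^ i ≤ 3 ^ m := pow_le_pow_right₀ (by norm_num) hi
    calc (3 : ℝ) ^ i * e ≤ 3 ^ m * e := mul_le_mul_of_nonneg_right h1 he0.le
      _ = e * 3 ^ m := mul_comm _ _
  have hbe : (2 : ℝ) ^ 62 ≤ N ^ e := by
    refine hbig.trans (Real.rpow_le_rpow_of_exponent_le hN1 ?_)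
    have := hθe 0 (by omega)
    rwa [pow_zero, one_mul] at this
  obtain ⟨P, hP⟩ : ∃ P : ℕ → Finset G, P = fun i => pop A (N ^ (1 - 3 ^ i * θ)) := ⟨_, rfl⟩
  have hmemP : ∀ i t, t ∈ P i ↔ N ^ (1 - 3 ^ i * θ) ≤ ((cor A t).card : ℝ) := by
    intro i t
    rw [hP]
    exact mem_pop (Real.rpow_pos_of_pos hNp _)
  have hSP : ∀ i, S ⊆ P i := by
    intro i s hs
    rw [hmemP]
    refine le_trans ?_ (hS s hs)
    exact Real.rpow_le_rpow_of_exponent_le hN1 (by linarith [hθi i])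
  have hPδ : ∀ i, N ^ δ ≤ (P i).card := by
    intro i
    refine hSδ.trans ?_
    exact_mod_cast Finset.card_le_card (hSP i)
  have hone : 1 ≤ N ^ δ := Real.one_le_rpow hN1 hδ
  -- the level
  obtain ⟨i, him, hi⟩ := pigeon m hm1 (fun i => ((P i).card : ℝ)) (N ^ (2 * e))
    (Real.rpow_nonneg hNp.le _) (hone.trans (hPδ 0)) (by
      have h1 := card_pop_le A (N ^ (1 - 3 ^ m * θ)) (Real.rpow_pos_of_pos hNp _)
      have h2 : ((P m).card : ℝ) ≤ N ^ (2 : ℝ) := by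
        have h3 : (P m).card = (pop A (N ^ (1 - 3 ^ m * θ))).card := by rw [hP]
        rw [h3]
        rw [← hN] at h1
        have h4 : N ^ 2 = N ^ (1 + 3 ^ m * θ) * N ^ (1 - 3 ^ m * θ) := by
          rw [← Real.rpow_add hNp, ← Real.rpow_natCast]
          congr 1
          push_cast
          ring
        rw [h4] at h1
        have h5 := le_of_mul_le_mul_right h1 (Real.rpow_pos_of_pos hNp _)
        refine h5.trans (Real.rpow_le_rpow_of_exponent_le hN1 ?_)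
        have h6 := hθe m le_rfl
        have h7 : e ≤ 1 := by
          rw [he, div_le_one hm0]
          exact hm1R
        linarith
      refine h2.trans (le_of_eq ?_)
      rw [← Real.rpow_natCast, ← Real.rpow_mul hNp.le]
      congr 1
      linarith)
  obtain ⟨t, ht⟩ : ∃ t : ℝ, t = 3 ^ i * θ := ⟨_, rfl⟩
  have ht0 : 0 < t := by rw [ht]; positivity
  have hte : t ≤ e := by rw [ht]; exact hθe i him.le
  have ht3 : 3 ^ (i + 1) * θ = 3 * t := by rw [ht, pow_succ]; ring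
  have h2t : 2 ≤ N ^ t := by
    have h1 : N ^ θ ≤ N ^ t := Real.rpow_le_rpow_of_exponent_le hN1 (by rw [ht]; exact hθi i)
    have h2 : (2 : ℝ) ≤ 2 ^ 62 := by norm_num
    linarith
  obtain ⟨p, hp⟩ : ∃ p : ℝ, p = (P i).card := ⟨_, rfl⟩
  have hpδ : N ^ δ ≤ p := by rw [hp]; exact hPδ i
  have hp0 : 0 < p := by linarith
  have hmi : ∀ s ∈ P i, N ^ (1 - t) ≤ ((cor A s).card : ℝ) := by
    intro s hs
    rw [ht]
    exact (hmemP i s).1 hs
  -- the number of pairs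
  obtain ⟨W, hW⟩ : ∃ W : ℝ, W =
      (((P i ×ˢ P i).filter (fun q : G × G => q.2 - q.1 ∈ P (i + 1))).card : ℝ) := ⟨_, rfl⟩
  have hWp : p ^ 2 * N ^ (-(3 * t)) ≤ W := by
    have h1 := pairs A (P i) (N ^ (1 - t)) (N ^ (1 - 3 * t)) (Real.rpow_nonneg hNp.le _) hmi
    have h2 : (((P i ×ˢ P i).filter (fun q : G × G => N ^ (1 - 3 * t) ≤
        ((cor A (q.2 - q.1)).card : ℝ))).card : ℝ) = W := by
      rw [hW]
      congr 2
      refine Finset.filter_congr fun q _ => ?_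
      rw [hmemP, ht3]
    rw [h2, ← hN, ← hp, max_eq_left (Real.rpow_nonneg hNp.le _)] at h1
    have h3 : (p * N ^ (1 - t)) ^ 2 = p ^ 2 * (N ^ t * N ^ (2 - 3 * t)) := by
      rw [mul_pow, ← Real.rpow_natCast (N ^ (1 - t)), ← Real.rpow_mul hNp.le,
        ← Real.rpow_add hNp]
      congr 2
      push_cast
      ring
    have h4 : N * (N * W + p ^ 2 * N ^ (1 - 3 * t)) = N ^ 2 * W + p ^ 2 * N ^ (2 - 3 * t) := by
      have : N ^ (2 - 3 * t) = N * N ^ (1 - 3 * t) := by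
        nth_rewrite 2 [← Real.rpow_one N]
        rw [← Real.rpow_add hNp]
        congr 1
        ring
      rw [this]
      ring
    rw [h3, h4] at h1
    have h5 : 0 ≤ p ^ 2 * N ^ (2 - 3 * t) := by positivity
    have h6 : p ^ 2 * N ^ (2 - 3 * t) * 2 ≤ p ^ 2 * N ^ (2 - 3 * t) * N ^ t :=
      mul_le_mul_of_nonneg_left h2t h5
    have h7 : p ^ 2 * N ^ (2 - 3 * t) ≤ N ^ 2 * W := by linarith
    have h8 : p ^ 2 * N ^ (2 - 3 * t) = N ^ 2 * (p ^ 2 * N ^ (-(3 * t))) := by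
      have : N ^ (2 - 3 * t) = N ^ 2 * N ^ (-(3 * t)) := by
        rw [← Real.rpow_natCast, ← Real.rpow_add hNp]
        congr 1
      rw [this]
      ring
    rw [h8] at h7
    exact le_of_mul_le_mul_left h7 (by positivity)
  -- the energy
  obtain ⟨E, hE⟩ : ∃ E : ℝ, E = ∑ t ∈ P i - P i, ((cor (P i) t).card : ℝ) ^ 2 := ⟨_, rfl⟩
  have hE0 : 0 ≤ E := by rw [hE]; exact Finset.sum_nonneg fun _ _ => sq_nonneg _
  have hEn := energy (P i) (P (i + 1))
  rw [← hW, ← hE] at hEn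
  have hEK : p ^ 3 ≤ N ^ (8 * e) * E := by
    have h1 : (p ^ 2 * N ^ (-(3 * t))) ^ 2 ≤ N ^ (2 * e) * p * E := by
      refine (pow_le_pow_left₀ (by positivity) hWp 2).trans (hEn.trans ?_)
      refine mul_le_mul_of_nonneg_right ?_ hE0
      rw [hp]
      exact hi
    have h2 : (p ^ 2 * N ^ (-(3 * t))) ^ 2 = p * (p ^ 3 * N ^ (-(6 * t))) := by
      rw [mul_pow, ← Real.rpow_natCast (N ^ (-(3 * t))), ← Real.rpow_mul hNp.le]
      have : -(3 * t) * ((2 : ℕ) : ℝ) = -(6 * t) := by push_cast; ring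
      rw [this]
      ring
    have h3 : N ^ (2 * e) * p * E = p * (N ^ (2 * e) * E) := by ring
    rw [h2, h3] at h1
    have h4 := le_of_mul_le_mul_left h1 hp0
    have h5 : p ^ 3 = (p ^ 3 * N ^ (-(6 * t))) * N ^ (6 * t) := by
      rw [mul_assoc, ← Real.rpow_add hNp, neg_add_cancel, Real.rpow_zero, mul_one]
    rw [h5]
    calc (p ^ 3 * N ^ (-(6 * t))) * N ^ (6 * t) ≤ (N ^ (2 * e) * E) * N ^ (6 * e) := by
          refine mul_le_mul h4 (Real.rpow_le_rpow_of_exponent_le hN1 (by linarith))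
            (Real.rpow_nonneg hNp.le _) (by positivity)
      _ = N ^ (8 * e) * E := by
          have : N ^ (8 * e) = N ^ (2 * e) * N ^ (6 * e) := by
            rw [← Real.rpow_add hNp]
            congr 1
            ring
          rw [this]
          ring
  have hPne : (P i).Nonempty := by
    rw [← Finset.card_pos]
    rw [hp] at hp0
    exact_mod_cast hp0
  obtain ⟨X, hX1, hX2, hX3, hX4, hX5⟩ := bsg_set (P i) hPne (N ^ (8 * e))
    (Real.one_le_rpow hN1 (by positivity)) (by rw [← hp, ← hE]; exact hEK)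
  rw [← hp] at hX3
  have hpw : ∀ j : ℕ, (N ^ (8 * e)) ^ j = N ^ (8 * j * e) := by
    intro j
    rw [← Real.rpow_natCast (N ^ (8 * e)), ← Real.rpow_mul hNp.le]
    congr 1
    ring
  have hX0 : (0 : ℝ) ≤ X.card := Nat.cast_nonneg _
  have hcst : ∀ (C : ℝ) (j : ℕ), 0 ≤ C → C ≤ 2 ^ 62 → (8 * j + 1 : ℝ) * e ≤ κ →
      C * (N ^ (8 * e)) ^ j ≤ N ^ κ := by
    intro C j hC0 hC hj
    rw [hpw]
    calc C * N ^ (8 * j * e) ≤ N ^ e * N ^ (8 * j * e) :=
          mul_le_mul_of_nonneg_right (hC.trans hbe) (Real.rpow_nonneg hNp.le _)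
      _ = N ^ ((8 * j + 1 : ℝ) * e) := by
          rw [← Real.rpow_add hNp]
          congr 1
          ring
      _ ≤ N ^ κ := Real.rpow_le_rpow_of_exponent_le hN1 hj
  refine ⟨X, hX1, ?_, ?_, ?_, ?_⟩
  · have h1 := hcst 128 3 (by norm_num) (by norm_num) (by push_cast; linarith)
    have h2 : N ^ δ ≤ N ^ κ * X.card :=
      hpδ.trans (hX3.trans (mul_le_mul_of_nonneg_right h1 hX0))
    have h3 : N ^ δ = N ^ κ * N ^ (δ - κ) := by
      rw [← Real.rpow_add hNp]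
      congr 1
      ring
    rw [h3] at h2
    exact le_of_mul_le_mul_left h2 (Real.rpow_pos_of_pos hNp _)
  · exact hX4.trans (mul_le_mul_of_nonneg_right
      (hcst (2 ^ 31) 10 (by norm_num) (by norm_num) (by push_cast; linarith)) hX0)
  · exact hX5.trans (mul_le_mul_of_nonneg_right
      (hcst (2 ^ 62) 20 (by norm_num) le_rfl (by push_cast; linarith)) hX0)
  · intro h hh
    refine le_trans ?_ (hmi h (hX2 hh))
    exact Real.rpow_le_rpow_of_exponent_le hN1 (by linarith)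

end Pool.Agent.Helper15.GPP
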