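import Pool.Agent.Helper15.GPP.Free
import Pool.Agent.Helper28.LN.Local
import Pool.Agent.Helper28.PP.Group
import Pool.Agent.Helper88.PP.All

set_option autoImplicit false

/-!
# Project GL++ (MP_120218), Result: the sums-alone theorem
-/

namespace Pool.Agent.Helper15.GPP

open Finset Pool.Agent.Helper15.GL Pool.Agent.Helper15.GLP Pool.Agent.Helper28.LN

/-- `|A + D|` is almost maximal for every `D` -/
def AllD (ε c : ℝ) (A : Finset ℤ) : Prop :=
  ∀ D : Finset ℤ, D.Nonempty → c * ((A.card : ℝ) * D.card) ^ (1 - ε) ≤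
    ((Finset.image₂ (fun a d => a + d) A D).card : ℝ)

theorem card_add_comm (X A : Finset ℤ) : (Finset.image₂ (fun a b => a + b) X A).card =
    (Finset.image₂ (fun a b => a + b) A X).card := by
  congr 1
  ext z
  rw [Finset.mem_image₂, Finset.mem_image₂]
  constructor
  · rintro ⟨a, ha, b, hb, rfl⟩
    exact ⟨b, hb, a, ha, add_comm _ _⟩
  · rintro ⟨a, ha, b, hb, rfl⟩
    exact ⟨b, hb, a, ha, add_comm _ _⟩

theorem le_card_add (A D : Finset ℤ) (hA : A.Nonempty) :
    D.card ≤ (Finset.image₂ (fun a d => a + d) A D).card := by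
  obtain ⟨a, ha⟩ := hA
  calc D.card = (D.image (fun d => a + d)).card := by
        rw [Finset.card_image_of_injective]
        exact add_right_injective a
    _ ≤ _ := by
        refine Finset.card_le_card fun z hz => ?_
        obtain ⟨d, hd, rfl⟩ := Finset.mem_image.1 hz
        exact Finset.mem_image₂_of_mem ha hd

theorem allD_of_growsB (ε η : ℝ) (hη : 0 < η) (hηε : η ≤ ε) (hη1 : η ≤ 1) (c : ℝ) (hc0 : 0 ≤ c)
    (hc : c ≤ 1) (A : Finset ℤ) (hA : A.Nonempty) (hG : GrowsB η (1 / η) A) : AllD ε c A := by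
  intro D hD
  have hA1 : (1 : ℝ) ≤ A.card := by exact_mod_cast hA.card_pos
  have hD1 : (1 : ℝ) ≤ D.card := by exact_mod_cast hD.card_pos
  have hAD1 : (1 : ℝ) ≤ (A.card : ℝ) * D.card := by nlinarith
  have ha : 0 ≤ Real.log A.card := Real.log_nonneg hA1
  have hd : 0 ≤ Real.log D.card := Real.log_nonneg hD1
  have hpos : (0 : ℝ) < (Finset.image₂ (fun a d => a + d) A D).card := by
    exact_mod_cast Finset.card_pos.2 (hA.image₂ hD)
  have h1 : ((A.card : ℝ) * D.card) ^ (1 - ε) ≤ ((A.card : ℝ) * D.card) ^ (1 - η) :=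
    Real.rpow_le_rpow_of_exponent_le hAD1 (by linarith)
  have h0 : (0 : ℝ) < ((A.card : ℝ) * D.card) ^ (1 - ε) := Real.rpow_pos_of_pos (by linarith) _
  have h2 : ((A.card : ℝ) * D.card) ^ (1 - η) ≤
      ((Finset.image₂ (fun a d => a + d) A D).card : ℝ) := by
    rw [← Real.log_le_log_iff (Real.rpow_pos_of_pos (by linarith) _) hpos,
      Real.log_rpow (by linarith), Real.log_mul (by linarith) (by linarith)]
    by_cases hB : Real.log D.card ≤ 1 / η * Real.log A.card
    · have h3 := hG D hD hB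
      rw [card_add_comm] at h3
      linarith
    · rw [not_le, div_mul_eq_mul_div, one_mul, div_lt_iff₀ hη] at hB
      have h3 : Real.log D.card ≤ Real.log (Finset.image₂ (fun a d => a + d) A D).card :=
        Real.log_le_log (by linarith) (by exact_mod_cast le_card_add A D hA)
      have h4 : 0 ≤ η * Real.log A.card := mul_nonneg hη.le ha
      nlinarith
  calc c * ((A.card : ℝ) * D.card) ^ (1 - ε) ≤ 1 * ((A.card : ℝ) * D.card) ^ (1 - ε) :=
        mul_le_mul_of_nonneg_right hc h0.le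
    _ = ((A.card : ℝ) * D.card) ^ (1 - ε) := one_mul _
    _ ≤ _ := h1.trans h2

theorem allD_small (ε N0 c : ℝ) (hε : 0 < ε) (hN0 : 1 ≤ N0) (hc0 : 0 ≤ c) (hc : c ≤ 1 / N0)
    (A : Finset ℤ) (hA : A.Nonempty) (hAN : (A.card : ℝ) ≤ N0) : AllD ε c A := by
  intro D hD
  have hA1 : (1 : ℝ) ≤ A.card := by exact_mod_cast hA.card_pos
  have hD1 : (1 : ℝ) ≤ D.card := by exact_mod_cast hD.card_pos
  have hAD1 : (1 : ℝ) ≤ (A.card : ℝ) * D.card := by nlinarith
  have h1 : ((A.card : ℝ) * D.card) ^ (1 - ε) ≤ (A.card : ℝ) * D.card := by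
    calc ((A.card : ℝ) * D.card) ^ (1 - ε) ≤ ((A.card : ℝ) * D.card) ^ (1 : ℝ) :=
          Real.rpow_le_rpow_of_exponent_le hAD1 (by linarith)
      _ = _ := Real.rpow_one _
  have h2 : (D.card : ℝ) ≤ ((Finset.image₂ (fun a d => a + d) A D).card : ℝ) := by
    exact_mod_cast le_card_add A D hA
  calc c * ((A.card : ℝ) * D.card) ^ (1 - ε) ≤ 1 / N0 * (N0 * D.card) := by
        refine mul_le_mul hc (h1.trans ?_) (Real.rpow_nonneg (by linarith) _) (by positivity)
        exact mul_le_mul_of_nonneg_right hAN (by linarith)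
    _ = D.card := by field_simp
    _ ≤ _ := h2

/-- the dichotomy -/
theorem dichotomy (ε δ : ℝ) (hε : 0 < ε) (hδ : 0 < δ) : ∃ C c : ℝ, 0 < C ∧ 0 < c ∧
    ∀ A : Finset ℤ, A.Nonempty → AllD ε c A ∨
      ((∀ (r : ℕ) (g : Fin r → ℚ), 1 ≤ r → (∀ i, g i ≠ 0) →
          ({a : ℤ | a ∈ A ∧ (1 + C * Real.log (A.card : ℝ) / r) ^ r <
            ({b : ℤ | b ∈ A ∧ ∃ e : Fin r → ℤ, (b : ℚ) = a * ∏ i, g i ^ e i ∨
              (b : ℚ) = -(a * ∏ i, g i ^ e i)}.ncard : ℝ)}.ncard : ℝ) ≤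
            (A.card : ℝ) ^ (1 - c)) ∧
       (∀ P : Finset ℚ, (∀ s ∈ P, s ≠ 0) → (A.card : ℝ) ^ δ ≤ P.card →
          (A.card : ℝ) ^ (1 + c) ≤
            ((Finset.image₂ (fun (a : ℤ) (s : ℚ) => (a : ℚ) * s) A P).card : ℝ)) ∧
       (∀ (S : Finset ℤ) (P : Finset ℕ) (R : ℝ), S ⊆ A →
          (A.card : ℝ) ^ (1 - c) ≤ S.card → (∀ p ∈ P, p.Prime) → C ≤ R →
          (∀ p ∈ P, R * ((S.filter (fun a : ℤ => (p : ℤ) * a ∉ S)).card : ℝ) ≤ S.card) →
          R * P.card * Real.log (P.card + 1) < C * Real.log (A.card : ℝ))) := by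
  classical
  obtain ⟨η, hη⟩ : ∃ η : ℝ, η = min ε 1 := ⟨_, rfl⟩
  have hη0 : 0 < η := by rw [hη]; exact lt_min hε one_pos
  have hηε : η ≤ ε := by rw [hη]; exact min_le_left _ _
  have hη1 : η ≤ 1 := by rw [hη]; exact min_le_right _ _
  obtain ⟨C1, hC1, hgroup⟩ := Pool.Agent.Helper28.PP.sumGroup Pool.Agent.Helper88.PP.sumAbs_all ε hε
  obtain ⟨τ, N0, hτ, hN0, hfree⟩ := grow_free η (1 / η) δ hη0 hη1 (by positivity) hδ
  obtain ⟨C2, hC2, hlines⟩ := primes_grow (η / 2) (by positivity) (by linarith)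
  obtain ⟨C, hCd⟩ : ∃ C : ℝ, C = max C1 C2 := ⟨_, rfl⟩
  have hC1C : C1 ≤ C := by rw [hCd]; exact le_max_left _ _
  have hC2C : C2 ≤ C := by rw [hCd]; exact le_max_right _ _
  have hC : 0 < C := by linarith
  obtain ⟨c, hcd⟩ : ∃ c : ℝ, c = min (min (1 / C1) (1 / N0)) (min τ (η / 2)) := ⟨_, rfl⟩
  have hN0p : 0 < N0 := by linarith
  have hC1p : 0 < C1 := by linarith
  have hc0 : 0 < c := by
    rw [hcd]
    exact lt_min (lt_min (by positivity) (by positivity)) (lt_min hτ (by positivity))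
  have hcC1 : c ≤ 1 / C1 := by rw [hcd]; exact (min_le_left _ _).trans (min_le_left _ _)
  have hcN0 : c ≤ 1 / N0 := by rw [hcd]; exact (min_le_left _ _).trans (min_le_right _ _)
  have hcτ : c ≤ τ := by rw [hcd]; exact (min_le_right _ _).trans (min_le_left _ _)
  have hcη : c ≤ η / 2 := by rw [hcd]; exact (min_le_right _ _).trans (min_le_right _ _)
  have hc1 : c ≤ 1 := by linarith
  refine ⟨C, c, hC, hc0, fun A hA => ?_⟩
  by_cases hAll : AllD ε c A
  · exact Or.inl hAll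
  right
  have hA1 : (1 : ℝ) ≤ A.card := by exact_mod_cast hA.card_pos
  have hA0 : (0 : ℝ) < A.card := by linarith
  have hlog : 0 ≤ Real.log A.card := Real.log_nonneg hA1
  have hAN : N0 ≤ A.card := by
    by_contra h
    exact hAll (allD_small ε N0 c hε hN0 hc0.le hcN0 A hA (not_le.1 h).le)
  refine ⟨?_, ?_, ?_⟩
  · intro r g hr hg
    by_contra hcon
    rw [not_le] at hcon
    refine hAll fun D hD => ?_
    have hr0 : (0 : ℝ) < r := by exact_mod_cast hr
    have h1 := hgroup r g A hr hg hA (by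
      have h2 : {a : ℤ | a ∈ A ∧ (1 + C * Real.log (A.card : ℝ) / r) ^ r <
          ({b : ℤ | b ∈ A ∧ ∃ e : Fin r → ℤ, (b : ℚ) = a * ∏ i, g i ^ e i ∨
            (b : ℚ) = -(a * ∏ i, g i ^ e i)}.ncard : ℝ)} ⊆
          {a : ℤ | a ∈ A ∧ (1 + C1 * Real.log (A.card : ℝ) / r) ^ r <
          ({b : ℤ | b ∈ A ∧ ∃ e : Fin r → ℤ, (b : ℚ) = a * ∏ i, g i ^ e i ∨
            (b : ℚ) = -(a * ∏ i, g i ^ e i)}.ncard : ℝ)} := by
        rintro a ⟨ha, hb⟩
        refine ⟨ha, lt_of_le_of_lt ?_ hb⟩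
        refine pow_le_pow_left₀ (by positivity) ?_ r
        have h6 := div_le_div_of_nonneg_right (mul_le_mul_of_nonneg_right hC1C hlog) hr0.le
        linarith
      have h3 : {a : ℤ | a ∈ A ∧ (1 + C1 * Real.log (A.card : ℝ) / r) ^ r <
          ({b : ℤ | b ∈ A ∧ ∃ e : Fin r → ℤ, (b : ℚ) = a * ∏ i, g i ^ e i ∨
            (b : ℚ) = -(a * ∏ i, g i ^ e i)}.ncard : ℝ)}.Finite :=
        (Finset.finite_toSet A).subset fun a ha => Finset.mem_coe.2 ha.1
      have h4 := Set.ncard_le_ncard h2 h3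
      have h5 : (A.card : ℝ) ^ (1 - 1 / C1) ≤ (A.card : ℝ) ^ (1 - c) :=
        Real.rpow_le_rpow_of_exponent_le hA1 (by linarith)
      refine h5.trans (hcon.le.trans ?_)
      exact_mod_cast h4) D hD
    have h2 : ((Pool.Agent.Helper88.PP.sumS A D).card : ℝ) =
        ((Finset.image₂ (fun a d => a + d) A D).card : ℝ) := by
      unfold Pool.Agent.Helper88.PP.sumS
      rfl
    rw [h2] at h1
    have h3 : 0 ≤ ((A.card : ℝ) * D.card) ^ (1 - ε) := by positivity
    calc c * ((A.card : ℝ) * D.card) ^ (1 - ε) ≤ 1 / C1 * ((A.card : ℝ) * D.card) ^ (1 - ε) :=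
          mul_le_mul_of_nonneg_right hcC1 h3
      _ ≤ 1 / C1 * (C1 * ((Finset.image₂ (fun a d => a + d) A D).card : ℝ)) :=
          mul_le_mul_of_nonneg_left h1 (by positivity)
      _ = _ := by field_simp
  · intro P hP hPc
    by_contra hcon
    rw [not_le] at hcon
    refine hAll (allD_of_growsB ε η hη0 hηε hη1 c hc0.le hc1 A hA (hfree A P hP hAN hPc ?_))
    refine hcon.le.trans ?_
    exact Real.rpow_le_rpow_of_exponent_le hA1 (by linarith)
  · intro S P R hSA hS hP hCR hbad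
    by_contra hcon
    rw [not_lt] at hcon
    have hSpos : (0 : ℝ) < S.card := lt_of_lt_of_le (Real.rpow_pos_of_pos hA0 _) hS
    have hSne : S.Nonempty := by
      rw [← Finset.card_pos]
      exact_mod_cast hSpos
    have hSle : (S.card : ℝ) ≤ A.card := by exact_mod_cast Finset.card_le_card hSA
    have hlogS : Real.log S.card ≤ Real.log A.card := Real.log_le_log hSpos hSle
    have hlogS0 : 0 ≤ Real.log S.card := Real.log_natCast_nonneg _
    have hfil : ∀ p : ℕ, (bad (p : ℚ) S).card = (S.filter (fun a : ℤ => (p : ℤ) * a ∉ S)).card := by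
      intro p
      unfold bad
      congr 1
      ext a
      rw [Finset.mem_filter, Finset.mem_filter]
      refine and_congr_right fun _ => ⟨fun h hb => h _ hb ?_, fun h b hb hba => h ?_⟩
      · push_cast
        ring
      · have h1 : ((b : ℤ) : ℚ) = (((p : ℤ) * a : ℤ) : ℚ) := by rw [hba]; push_cast; ring
        rw [← Int.cast_injective h1]
        exact hb
    have hG : Grows (η / 2) S := by
      refine hlines S P R hSne (hC2C.trans hCR) hP ?_ ?_
      · intro p hp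
        rw [hfil]
        exact hbad p hp
      · refine le_trans ?_ hcon
        exact mul_le_mul hC2C hlogS hlogS0 hC.le
    have h1 := grows_of_subset (η / 2) (η / 2) (by positivity) (by positivity) (by linarith) A S hSA
      hSne ((Real.rpow_le_rpow_of_exponent_le hA1 (by linarith)).trans hS) hG
    have h2 : η / 2 + η / 2 = η := by ring
    rw [h2] at h1
    exact hAll (allD_of_growsB ε η hη0 hηε hη1 c hc0.le hc1 A hA (Grows.toB h1))

end Pool.Agent.Helper15.GPP
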